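import Pool.Agent.Strip051.LC.Line.Modulus
import Pool.Agent.Strip051.LB.Fn.R

/-! # LINE functions for the special tight charts: real functions -/

namespace Pool.Agent.Strip051.LB.Fd

open Pool.Agent.Strip051.LB.Fn

noncomputable def kx2a_v3 (_a1 a2 _a3 : ℝ) : ℝ := sw_v (a2)

noncomputable def kx2a_v4 (_a1 a2 _a3 : ℝ) : ℝ := b1q2_v (a2)

noncomputable def kx2a_v5 (_a1 a2 _a3 : ℝ) : ℝ := b2q2_v (a2)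

noncomputable def kx2a_v6 (_a1 a2 _a3 : ℝ) : ℝ := c3f_v (a2)

noncomputable def kx2a_v7 (a1 a2 a3 : ℝ) : ℝ := a3 + kx2a_v3 a1 a2 a3

noncomputable def kx2a_v8 (_a1 _a2 _a3 : ℝ) : ℝ := ((1 : ℕ) : ℝ) / ((2 : ℕ) : ℝ)

noncomputable def kx2a_v9 (a1 a2 a3 : ℝ) : ℝ := kx2a_v7 a1 a2 a3 - kx2a_v8 a1 a2 a3

noncomputable def kx2a_v10 (a1 a2 a3 : ℝ) : ℝ := ((1 : ℕ) : ℝ) / ((2 : ℕ) : ℝ) * kx2a_v9 a1 a2 a3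

noncomputable def kx2a_v11 (a1 a2 a3 : ℝ) : ℝ := kx2a_v3 a1 a2 a3 - kx2a_v8 a1 a2 a3

noncomputable def kx2a_v12 (a1 a2 a3 : ℝ) : ℝ := kx2a_v11 a1 a2 a3 + kx2a_v6 a1 a2 a3

noncomputable def kx2a_v13 (a1 a2 a3 : ℝ) : ℝ := ((1 : ℕ) : ℝ) / ((2 : ℕ) : ℝ) * kx2a_v12 a1 a2 a3

noncomputable def kx2a_v14 (a1 a2 a3 : ℝ) : ℝ := kx2a_v13 a1 a2 a3 * kx2a_v5 a1 a2 a3

noncomputable def kx2a_v15 (a1 a2 a3 : ℝ) : ℝ := kx2a_v10 a1 a2 a3 * kx2a_v4 a1 a2 a3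

noncomputable def kx2a_v16 (a1 a2 a3 : ℝ) : ℝ := kx2a_v14 a1 a2 a3 - kx2a_v15 a1 a2 a3

noncomputable def kx2a_v17 (a1 a2 a3 : ℝ) : ℝ := kx2a_v13 a1 a2 a3 - kx2a_v10 a1 a2 a3

noncomputable def kx2a_v18 (a1 a2 a3 : ℝ) : ℝ := (kx2a_v17 a1 a2 a3)⁻¹

noncomputable def kx2a_v19 (a1 a2 a3 : ℝ) : ℝ := kx2a_v16 a1 a2 a3 * kx2a_v18 a1 a2 a3

noncomputable def kx2a_v20 (_a1 _a2 _a3 : ℝ) : ℝ := ((1 : ℕ) : ℝ)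

noncomputable def kx2a_v21 (a1 a2 a3 : ℝ) : ℝ := kx2a_v19 a1 a2 a3 - kx2a_v20 a1 a2 a3

noncomputable def kx2a_v22 (_a1 _a2 _a3 : ℝ) : ℝ := Real.sqrt ((3 : ℕ) : ℝ)

noncomputable def kx2a_v23 (a1 a2 a3 : ℝ) : ℝ := ((1 : ℕ) : ℝ) / ((2 : ℕ) : ℝ) * kx2a_v22 a1 a2 a3

noncomputable def kx2a_v24 (a1 a2 a3 : ℝ) : ℝ := a2 + kx2a_v23 a1 a2 a3

noncomputable def kx2a_v25 (a1 a2 a3 : ℝ) : ℝ := kx2a_v8 a1 a2 a3 + a3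

noncomputable def kx2a_v26 (a1 a2 a3 : ℝ) : ℝ := (kx2a_v25 a1 a2 a3)⁻¹

noncomputable def kx2a_v27 (a1 a2 a3 : ℝ) : ℝ := kx2a_v24 a1 a2 a3 * kx2a_v26 a1 a2 a3

noncomputable def kx2a_v28 (a1 a2 a3 : ℝ) : ℝ := a2 - kx2a_v23 a1 a2 a3

noncomputable def kx2a_v29 (a1 a2 a3 : ℝ) : ℝ := kx2a_v20 a1 a2 a3 + kx2a_v3 a1 a2 a3

noncomputable def kx2a_v30 (a1 a2 a3 : ℝ) : ℝ := (kx2a_v29 a1 a2 a3)⁻¹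

noncomputable def kx2a_v31 (a1 a2 a3 : ℝ) : ℝ := kx2a_v28 a1 a2 a3 * kx2a_v30 a1 a2 a3

noncomputable def kx2a_v32 (a1 a2 a3 : ℝ) : ℝ := kx2a_v27 a1 a2 a3 - kx2a_v31 a1 a2 a3

noncomputable def kx2a_v33 (a1 a2 a3 : ℝ) : ℝ := ((1 : ℕ) : ℝ) / ((2 : ℕ) : ℝ) * kx2a_v32 a1 a2 a3

noncomputable def kx2a_v35 (a1 a2 a3 : ℝ) : ℝ := ((98 : ℕ) : ℝ) / ((375 : ℕ) : ℝ) * kx2a_v22 a1 a2 a3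

noncomputable def kx2a_v37 (a1 a2 a3 : ℝ) : ℝ := kx2a_v35 a1 a2 a3 * kx2a_v10 a1 a2 a3

noncomputable def kx2a_v39 (a1 a2 a3 : ℝ) : ℝ := (kx2a_v33 a1 a2 a3)⁻¹

noncomputable def kx2a_v40 (a1 a2 a3 : ℝ) : ℝ := kx2a_v37 a1 a2 a3 * kx2a_v39 a1 a2 a3

noncomputable def kx2a_v41 (a1 a2 a3 : ℝ) : ℝ := -(kx2a_v40 a1 a2 a3)

noncomputable def kx2a_v42 (a1 a2 a3 : ℝ) : ℝ := a1 - kx2a_v10 a1 a2 a3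

noncomputable def kx2a_v43 (a1 a2 a3 : ℝ) : ℝ := kx2a_v10 a1 a2 a3 - a3

noncomputable def kx2a_v44 (a1 _a2 a3 : ℝ) : ℝ := a1 - a3

noncomputable def kx2a_v45 (a1 a2 a3 : ℝ) : ℝ := min (max (kx2a_v43 a1 a2 a3 * (kx2a_v44 a1 a2 a3)⁻¹) 0) 1

noncomputable def kx2a_v46 (a1 a2 a3 : ℝ) : ℝ := kx2a_v41 a1 a2 a3 - kx2a_v21 a1 a2 a3

noncomputable def kx2a_v47 (a1 a2 a3 : ℝ) : ℝ := kx2a_v45 a1 a2 a3 * kx2a_v46 a1 a2 a3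

noncomputable def kx2a_v48 (a1 a2 a3 : ℝ) : ℝ := kx2a_v21 a1 a2 a3 + kx2a_v47 a1 a2 a3

noncomputable def kx2a_v49 (a1 a2 a3 : ℝ) : ℝ := if kx2a_v42 a1 a2 a3 ≤ 0 then kx2a_v41 a1 a2 a3 else kx2a_v48 a1 a2 a3

noncomputable def kx2a_v50 (a1 _a2 a3 : ℝ) : ℝ := a1 + a3

noncomputable def kx2a_v51 (a1 a2 a3 : ℝ) : ℝ := (kx2a_v50 a1 a2 a3)⁻¹

noncomputable def kx2a_v52 (a1 a2 a3 : ℝ) : ℝ := kx2a_v49 a1 a2 a3 * kx2a_v51 a1 a2 a3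

noncomputable def kx2a_v53 (a1 a2 a3 : ℝ) : ℝ := kx2a_v4 a1 a2 a3 - kx2a_v20 a1 a2 a3

noncomputable def kx2a_v54 (a1 a2 a3 : ℝ) : ℝ := kx2a_v10 a1 a2 a3 * kx2a_v53 a1 a2 a3

noncomputable def kx2a_v55 (a1 a2 a3 : ℝ) : ℝ := (kx2a_v43 a1 a2 a3)⁻¹

noncomputable def kx2a_v56 (a1 a2 a3 : ℝ) : ℝ := kx2a_v54 a1 a2 a3 * kx2a_v55 a1 a2 a3

noncomputable def kx2a_v57 (a1 a2 a3 : ℝ) : ℝ := ((9 : ℕ) : ℝ) / ((16 : ℕ) : ℝ) * kx2a_v22 a1 a2 a3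

noncomputable def kx2a_v58 (a1 a2 a3 : ℝ) : ℝ := kx2a_v20 a1 a2 a3 - kx2a_v57 a1 a2 a3

noncomputable def kx2a_v60 (a1 a2 a3 : ℝ) : ℝ := (kx2a_v58 a1 a2 a3)⁻¹

noncomputable def kx2a_v61 (a1 a2 a3 : ℝ) : ℝ := ((49 : ℕ) : ℝ) / ((1000 : ℕ) : ℝ) * kx2a_v60 a1 a2 a3

noncomputable def kx2a_v62 (a1 a2 a3 : ℝ) : ℝ := kx2a_v61 a1 a2 a3 * a3

noncomputable def kx2a_v63 (a1 a2 a3 : ℝ) : ℝ := min (max (a3 * (kx2a_v50 a1 a2 a3)⁻¹) 0) 1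

noncomputable def kx2a_v64 (a1 a2 a3 : ℝ) : ℝ := kx2a_v62 a1 a2 a3 * kx2a_v63 a1 a2 a3

noncomputable def kx2a_v65 (a1 a2 a3 : ℝ) : ℝ := kx2a_v64 a1 a2 a3 * kx2a_v10 a1 a2 a3

noncomputable def kx2a_v67 (a1 a2 a3 : ℝ) : ℝ := kx2a_v20 a1 a2 a3 + a2

noncomputable def kx2a_v68 (a1 a2 a3 : ℝ) : ℝ := kx2a_v67 a1 a2 a3 * kx2a_v43 a1 a2 a3

noncomputable def kx2a_v69 (a1 a2 a3 : ℝ) : ℝ := (kx2a_v68 a1 a2 a3)⁻¹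

noncomputable def kx2a_v70 (a1 a2 a3 : ℝ) : ℝ := kx2a_v65 a1 a2 a3 * kx2a_v69 a1 a2 a3

noncomputable def kx2a_v71 (a1 a2 a3 : ℝ) : ℝ := -(kx2a_v70 a1 a2 a3)

noncomputable def kx2a_v72 (a1 a2 a3 : ℝ) : ℝ := kx2a_v56 a1 a2 a3 - kx2a_v21 a1 a2 a3

noncomputable def kx2a_v73 (a1 a2 a3 : ℝ) : ℝ := kx2a_v45 a1 a2 a3 * kx2a_v72 a1 a2 a3

noncomputable def kx2a_v74 (a1 a2 a3 : ℝ) : ℝ := kx2a_v21 a1 a2 a3 + kx2a_v73 a1 a2 a3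

noncomputable def kx2a_v75 (a1 a2 a3 : ℝ) : ℝ := kx2a_v74 a1 a2 a3 * kx2a_v51 a1 a2 a3

noncomputable def kx2a_v76 (a1 a2 a3 : ℝ) : ℝ := if kx2a_v42 a1 a2 a3 ≤ 0 then kx2a_v71 a1 a2 a3 else kx2a_v75 a1 a2 a3

noncomputable def kx2a_v77 (a1 a2 a3 : ℝ) : ℝ := a2 - kx2a_v57 a1 a2 a3

noncomputable def kx2a_v78 (a1 a2 a3 : ℝ) : ℝ := if kx2a_v77 a1 a2 a3 ≤ 0 then kx2a_v52 a1 a2 a3 else kx2a_v76 a1 a2 a3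

noncomputable def kx2a_v (a1 a2 a3 : ℝ) : ℝ := kx2a_v78 a1 a2 a3

noncomputable def kx2b_v2 (_a1 a2 : ℝ) : ℝ := sw_v (a2)

noncomputable def kx2b_v3 (_a1 _a2 : ℝ) : ℝ := ((1 : ℕ) : ℝ)

noncomputable def kx2b_v4 (a1 a2 : ℝ) : ℝ := a2 - kx2b_v3 a1 a2

noncomputable def kx2b_v5 (a1 a2 : ℝ) : ℝ := ((1033 : ℕ) : ℝ) / ((1000 : ℕ) : ℝ) * kx2b_v4 a1 a2

noncomputable def kx2b_v6 (_a1 _a2 : ℝ) : ℝ := Real.sqrt ((3 : ℕ) : ℝ)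

noncomputable def kx2b_v8 (a1 a2 : ℝ) : ℝ := ((3 : ℕ) : ℝ) / ((4 : ℕ) : ℝ) * kx2b_v6 a1 a2

noncomputable def kx2b_v9 (a1 a2 : ℝ) : ℝ := kx2b_v8 a1 a2 - kx2b_v3 a1 a2

noncomputable def kx2b_v10 (a1 a2 : ℝ) : ℝ := (kx2b_v9 a1 a2)⁻¹

noncomputable def kx2b_v11 (a1 a2 : ℝ) : ℝ := kx2b_v5 a1 a2 * kx2b_v10 a1 a2

noncomputable def kx2b_v12 (a1 a2 : ℝ) : ℝ := kx2b_v3 a1 a2 - kx2b_v11 a1 a2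

noncomputable def kx2b_v13 (_a1 a2 : ℝ) : ℝ := b2q2_v (a2)

noncomputable def kx2b_v14 (_a1 a2 : ℝ) : ℝ := c3f_v (a2)

noncomputable def kx2b_v15 (_a1 _a2 : ℝ) : ℝ := ((1 : ℕ) : ℝ) / ((2 : ℕ) : ℝ)

noncomputable def kx2b_v16 (a1 a2 : ℝ) : ℝ := kx2b_v2 a1 a2 - kx2b_v15 a1 a2

noncomputable def kx2b_v17 (a1 a2 : ℝ) : ℝ := ((1 : ℕ) : ℝ) / ((2 : ℕ) : ℝ) * kx2b_v16 a1 a2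

noncomputable def kx2b_v18 (a1 a2 : ℝ) : ℝ := kx2b_v16 a1 a2 + kx2b_v14 a1 a2

noncomputable def kx2b_v19 (a1 a2 : ℝ) : ℝ := ((1 : ℕ) : ℝ) / ((2 : ℕ) : ℝ) * kx2b_v18 a1 a2

noncomputable def kx2b_v20 (a1 a2 : ℝ) : ℝ := kx2b_v19 a1 a2 * kx2b_v13 a1 a2

noncomputable def kx2b_v21 (a1 a2 : ℝ) : ℝ := kx2b_v17 a1 a2 * kx2b_v12 a1 a2

noncomputable def kx2b_v22 (a1 a2 : ℝ) : ℝ := kx2b_v20 a1 a2 - kx2b_v21 a1 a2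

noncomputable def kx2b_v23 (a1 a2 : ℝ) : ℝ := kx2b_v19 a1 a2 - kx2b_v17 a1 a2

noncomputable def kx2b_v24 (a1 a2 : ℝ) : ℝ := (kx2b_v23 a1 a2)⁻¹

noncomputable def kx2b_v25 (a1 a2 : ℝ) : ℝ := kx2b_v22 a1 a2 * kx2b_v24 a1 a2

noncomputable def kx2b_v26 (a1 a2 : ℝ) : ℝ := kx2b_v25 a1 a2 - kx2b_v3 a1 a2

noncomputable def kx2b_v28 (a1 a2 : ℝ) : ℝ := ((1033 : ℕ) : ℝ) / ((1000 : ℕ) : ℝ) * kx2b_v10 a1 a2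

noncomputable def kx2b_v29 (a1 _a2 : ℝ) : ℝ := (a1) ^ 2

noncomputable def kx2b_v30 (_a1 a2 : ℝ) : ℝ := (a2) ^ 2

noncomputable def kx2b_v31 (a1 a2 : ℝ) : ℝ := kx2b_v29 a1 a2 + kx2b_v30 a1 a2

noncomputable def kx2b_v32 (a1 a2 : ℝ) : ℝ := kx2b_v31 a1 a2 - kx2b_v3 a1 a2

noncomputable def kx2b_v33 (a1 a2 : ℝ) : ℝ := a1 - kx2b_v17 a1 a2

noncomputable def kx2b_v34 (a1 a2 : ℝ) : ℝ := kx2b_v28 a1 a2 * a1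

noncomputable def kx2b_v35 (a1 a2 : ℝ) : ℝ := kx2b_v30 a1 a2 - kx2b_v3 a1 a2

noncomputable def kx2b_v36 (a1 a2 : ℝ) : ℝ := min (max (kx2b_v35 a1 a2 * (kx2b_v32 a1 a2)⁻¹) 0) 1

noncomputable def kx2b_v37 (a1 a2 : ℝ) : ℝ := kx2b_v34 a1 a2 * kx2b_v36 a1 a2

noncomputable def kx2b_v39 (a1 a2 : ℝ) : ℝ := kx2b_v3 a1 a2 + a2

noncomputable def kx2b_v40 (a1 a2 : ℝ) : ℝ := (kx2b_v39 a1 a2)⁻¹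

noncomputable def kx2b_v41 (a1 a2 : ℝ) : ℝ := kx2b_v37 a1 a2 * kx2b_v40 a1 a2

noncomputable def kx2b_v42 (a1 a2 : ℝ) : ℝ := -(kx2b_v41 a1 a2)

noncomputable def kx2b_v43 (a1 a2 : ℝ) : ℝ := kx2b_v26 a1 a2 + kx2b_v3 a1 a2

noncomputable def kx2b_v44 (a1 a2 : ℝ) : ℝ := kx2b_v33 a1 a2 * kx2b_v43 a1 a2

noncomputable def kx2b_v45 (a1 a2 : ℝ) : ℝ := kx2b_v21 a1 a2 + kx2b_v44 a1 a2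

noncomputable def kx2b_v46 (a1 a2 : ℝ) : ℝ := kx2b_v45 a1 a2 - a1

noncomputable def kx2b_v47 (a1 a2 : ℝ) : ℝ := (kx2b_v32 a1 a2)⁻¹

noncomputable def kx2b_v48 (a1 a2 : ℝ) : ℝ := kx2b_v46 a1 a2 * kx2b_v47 a1 a2

noncomputable def kx2b_v49 (a1 a2 : ℝ) : ℝ := if kx2b_v33 a1 a2 ≤ 0 then kx2b_v42 a1 a2 else kx2b_v48 a1 a2

noncomputable def kx2b_v (a1 a2 : ℝ) : ℝ := kx2b_v49 a1 a2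

noncomputable def kx3z_v4 (_a1 _a2 _a3 _a4 : ℝ) : ℝ := Real.sqrt ((3 : ℕ) : ℝ)

noncomputable def kx3z_v5 (a1 a2 a3 a4 : ℝ) : ℝ := ((1 : ℕ) : ℝ) / ((2 : ℕ) : ℝ) * kx3z_v4 a1 a2 a3 a4

noncomputable def kx3z_v6 (a1 a2 a3 a4 : ℝ) : ℝ := (kx3z_v4 a1 a2 a3 a4)⁻¹

noncomputable def kx3z_v7 (a1 a2 a3 a4 : ℝ) : ℝ := a2 * kx3z_v6 a1 a2 a3 a4

noncomputable def kx3z_v8 (_a1 _a2 _a3 _a4 : ℝ) : ℝ := ((1 : ℕ) : ℝ)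

noncomputable def kx3z_v9 (a1 a2 a3 a4 : ℝ) : ℝ := kx3z_v8 a1 a2 a3 a4 + kx3z_v7 a1 a2 a3 a4

noncomputable def kx3z_v10 (a1 a2 a3 a4 : ℝ) : ℝ := kx3z_v8 a1 a2 a3 a4 + a4

noncomputable def kx3z_v11 (a1 a2 a3 a4 : ℝ) : ℝ := min (max (a4 * (kx3z_v10 a1 a2 a3 a4)⁻¹) 0) 1

noncomputable def kx3z_v12 (a1 a2 a3 a4 : ℝ) : ℝ := kx3z_v8 a1 a2 a3 a4 - kx3z_v11 a1 a2 a3 a4

noncomputable def kx3z_v13 (a1 a2 a3 a4 : ℝ) : ℝ := kx3z_v4 a1 a2 a3 a4 + a2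

noncomputable def kx3z_v14 (_a1 a2 _a3 _a4 : ℝ) : ℝ := sw_v (a2)

noncomputable def kx3z_v15 (_a1 _a2 _a3 _a4 : ℝ) : ℝ := ((1 : ℕ) : ℝ) / ((2 : ℕ) : ℝ)

noncomputable def kx3z_v16 (a1 a2 a3 a4 : ℝ) : ℝ := kx3z_v14 a1 a2 a3 a4 + kx3z_v15 a1 a2 a3 a4

noncomputable def kx3z_v17 (a1 a2 a3 a4 : ℝ) : ℝ := kx3z_v13 a1 a2 a3 a4 * kx3z_v16 a1 a2 a3 a4

noncomputable def kx3z_v18 (a1 a2 a3 a4 : ℝ) : ℝ := (kx3z_v17 a1 a2 a3 a4)⁻¹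

noncomputable def kx3z_v19 (a1 a2 a3 a4 : ℝ) : ℝ := a2 * kx3z_v18 a1 a2 a3 a4

noncomputable def kx3z_v20 (a1 a2 a3 a4 : ℝ) : ℝ := kx3z_v4 a1 a2 a3 a4 * kx3z_v13 a1 a2 a3 a4

noncomputable def kx3z_v21 (a1 a2 a3 a4 : ℝ) : ℝ := (kx3z_v20 a1 a2 a3 a4)⁻¹

noncomputable def kx3z_v22 (a1 a2 a3 a4 : ℝ) : ℝ := a3 * kx3z_v21 a1 a2 a3 a4

noncomputable def kx3z_v23 (a1 a2 a3 a4 : ℝ) : ℝ := kx3z_v8 a1 a2 a3 a4 + kx3z_v22 a1 a2 a3 a4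

noncomputable def kx3z_v24 (a1 a2 a3 a4 : ℝ) : ℝ := kx3z_v9 a1 a2 a3 a4 - a3

noncomputable def kx3z_v25 (a1 a2 a3 a4 : ℝ) : ℝ := ((2 : ℕ) : ℝ) * kx3z_v24 a1 a2 a3 a4

noncomputable def kx3z_v26 (a1 a2 a3 a4 : ℝ) : ℝ := (kx3z_v25 a1 a2 a3 a4)⁻¹

noncomputable def kx3z_v27 (a1 a2 a3 a4 : ℝ) : ℝ := kx3z_v23 a1 a2 a3 a4 * kx3z_v26 a1 a2 a3 a4

noncomputable def kx3z_v28 (_a1 _a2 a3 _a4 : ℝ) : ℝ := ((489 : ℕ) : ℝ) / ((250 : ℕ) : ℝ) * a3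

noncomputable def kx3z_v29 (a1 a2 a3 a4 : ℝ) : ℝ := kx3z_v5 a1 a2 a3 a4 * kx3z_v13 a1 a2 a3 a4

noncomputable def kx3z_v30 (a1 a2 a3 a4 : ℝ) : ℝ := (kx3z_v29 a1 a2 a3 a4)⁻¹

noncomputable def kx3z_v31 (a1 a2 a3 a4 : ℝ) : ℝ := kx3z_v28 a1 a2 a3 a4 * kx3z_v30 a1 a2 a3 a4

noncomputable def kx3z_v32 (a1 a2 a3 a4 : ℝ) : ℝ := kx3z_v27 a1 a2 a3 a4 - kx3z_v31 a1 a2 a3 a4

noncomputable def kx3z_v33 (a1 a2 a3 a4 : ℝ) : ℝ := kx3z_v9 a1 a2 a3 a4 - a1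

noncomputable def kx3z_v34 (a1 a2 a3 a4 : ℝ) : ℝ := kx3z_v24 a1 a2 a3 a4 * kx3z_v33 a1 a2 a3 a4

noncomputable def kx3z_v35 (a1 a2 a3 a4 : ℝ) : ℝ := (kx3z_v34 a1 a2 a3 a4)⁻¹

noncomputable def kx3z_v36 (a1 a2 a3 a4 : ℝ) : ℝ := kx3z_v11 a1 a2 a3 a4 * kx3z_v35 a1 a2 a3 a4

noncomputable def kx3z_v38 (a1 a2 a3 a4 : ℝ) : ℝ := kx3z_v12 a1 a2 a3 a4 * kx3z_v32 a1 a2 a3 a4

noncomputable def kx3z_v39 (a1 a2 a3 a4 : ℝ) : ℝ := a3 * kx3z_v19 a1 a2 a3 a4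

noncomputable def kx3z_v40 (a1 a2 a3 a4 : ℝ) : ℝ := kx3z_v8 a1 a2 a3 a4 + kx3z_v39 a1 a2 a3 a4

noncomputable def kx3z_v41 (a1 a2 a3 a4 : ℝ) : ℝ := kx3z_v38 a1 a2 a3 a4 * kx3z_v40 a1 a2 a3 a4

noncomputable def kx3z_v42 (a1 a2 a3 a4 : ℝ) : ℝ := kx3z_v8 a1 a2 a3 a4 - kx3z_v39 a1 a2 a3 a4

noncomputable def kx3z_v43 (a1 a2 a3 a4 : ℝ) : ℝ := (kx3z_v42 a1 a2 a3 a4)⁻¹

noncomputable def kx3z_v44 (a1 a2 a3 a4 : ℝ) : ℝ := kx3z_v41 a1 a2 a3 a4 * kx3z_v43 a1 a2 a3 a4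

noncomputable def kx3z_v45 (a1 a2 a3 a4 : ℝ) : ℝ := kx3z_v44 a1 a2 a3 a4 - kx3z_v36 a1 a2 a3 a4

noncomputable def kx3z_v46 (_a1 a2 _a3 _a4 : ℝ) : ℝ := b1q3_v (a2)

noncomputable def kx3z_v47 (_a1 a2 _a3 _a4 : ℝ) : ℝ := b2q3_v (a2)

noncomputable def kx3z_v48 (a1 a2 a3 a4 : ℝ) : ℝ := kx3z_v9 a1 a2 a3 a4 * a3

noncomputable def kx3z_v49 (a1 a2 a3 a4 : ℝ) : ℝ := kx3z_v48 a1 a2 a3 a4 * kx3z_v12 a1 a2 a3 a4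

noncomputable def kx3z_v50 (a1 a2 a3 a4 : ℝ) : ℝ := kx3z_v49 a1 a2 a3 a4 * kx3z_v21 a1 a2 a3 a4

noncomputable def kx3z_v51 (a1 a2 a3 a4 : ℝ) : ℝ := kx3z_v50 a1 a2 a3 a4 + kx3z_v9 a1 a2 a3 a4

noncomputable def kx3z_v52 (a1 a2 a3 a4 : ℝ) : ℝ := a3 * kx3z_v11 a1 a2 a3 a4

noncomputable def kx3z_v53 (a1 a2 a3 a4 : ℝ) : ℝ := kx3z_v51 a1 a2 a3 a4 - kx3z_v52 a1 a2 a3 a4

noncomputable def kx3z_v54 (a1 a2 a3 a4 : ℝ) : ℝ := kx3z_v25 a1 a2 a3 a4 * kx3z_v33 a1 a2 a3 a4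

noncomputable def kx3z_v55 (a1 a2 a3 a4 : ℝ) : ℝ := (kx3z_v54 a1 a2 a3 a4)⁻¹

noncomputable def kx3z_v56 (a1 a2 a3 a4 : ℝ) : ℝ := kx3z_v53 a1 a2 a3 a4 * kx3z_v55 a1 a2 a3 a4

noncomputable def kx3z_v58 (a1 a2 a3 a4 : ℝ) : ℝ := kx3z_v28 a1 a2 a3 a4 * kx3z_v12 a1 a2 a3 a4

noncomputable def kx3z_v59 (a1 a2 a3 a4 : ℝ) : ℝ := kx3z_v58 a1 a2 a3 a4 * kx3z_v30 a1 a2 a3 a4

noncomputable def kx3z_v60 (a1 a2 a3 a4 : ℝ) : ℝ := kx3z_v59 a1 a2 a3 a4 - kx3z_v56 a1 a2 a3 a4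

noncomputable def kx3z_v61 (a1 a2 a3 a4 : ℝ) : ℝ := kx3z_v12 a1 a2 a3 a4 * kx3z_v19 a1 a2 a3 a4

noncomputable def kx3z_v62 (a1 a2 a3 a4 : ℝ) : ℝ := kx3z_v47 a1 a2 a3 a4 - kx3z_v46 a1 a2 a3 a4

noncomputable def kx3z_v63 (a1 a2 a3 a4 : ℝ) : ℝ := kx3z_v61 a1 a2 a3 a4 * kx3z_v62 a1 a2 a3 a4

noncomputable def kx3z_v64 (a1 a2 a3 a4 : ℝ) : ℝ := kx3z_v60 a1 a2 a3 a4 - kx3z_v63 a1 a2 a3 a4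

noncomputable def kx3z_v65 (a1 a2 a3 a4 : ℝ) : ℝ := ((1 : ℕ) : ℝ) / ((2 : ℕ) : ℝ) * kx3z_v42 a1 a2 a3 a4

noncomputable def kx3z_v66 (a1 a2 a3 a4 : ℝ) : ℝ := kx3z_v8 a1 a2 a3 a4 - a4

noncomputable def kx3z_v67 (a1 a2 a3 a4 : ℝ) : ℝ := min (max (kx3z_v65 a1 a2 a3 a4 * (kx3z_v66 a1 a2 a3 a4)⁻¹) 0) 1

noncomputable def kx3z_v68 (a1 a2 a3 a4 : ℝ) : ℝ := ((1 : ℕ) : ℝ) / ((2 : ℕ) : ℝ) * kx3z_v40 a1 a2 a3 a4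

noncomputable def kx3z_v69 (a1 a2 a3 a4 : ℝ) : ℝ := kx3z_v68 a1 a2 a3 a4 - a4

noncomputable def kx3z_v70 (a1 a2 a3 a4 : ℝ) : ℝ := kx3z_v8 a1 a2 a3 a4 - kx3z_v67 a1 a2 a3 a4

noncomputable def kx3z_v71 (a1 a2 a3 a4 : ℝ) : ℝ := kx3z_v70 a1 a2 a3 a4 * kx3z_v64 a1 a2 a3 a4

noncomputable def kx3z_v72 (a1 a2 a3 a4 : ℝ) : ℝ := kx3z_v67 a1 a2 a3 a4 * kx3z_v45 a1 a2 a3 a4

noncomputable def kx3z_v73 (a1 a2 a3 a4 : ℝ) : ℝ := kx3z_v71 a1 a2 a3 a4 + kx3z_v72 a1 a2 a3 a4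

noncomputable def kx3z_v74 (a1 a2 a3 a4 : ℝ) : ℝ := if kx3z_v69 a1 a2 a3 a4 ≤ 0 then kx3z_v45 a1 a2 a3 a4 else kx3z_v73 a1 a2 a3 a4

noncomputable def kx3z_v (a1 a2 a3 a4 : ℝ) : ℝ := kx3z_v74 a1 a2 a3 a4

end Pool.Agent.Strip051.LB.Fd
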