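import Pool.Agent.Strip051.LB.Fd.R
import Pool.Agent.Strip051.Box.C2
import Pool.Agent.Strip051.Box.S30
import Pool.Agent.Strip051.LB.Fn.F2

/-! # LINE functions for the special tight charts: enclosures in 2 variable(s) -/

namespace Pool.Agent.Strip051.LB.Fd.F2

open Pool.Agent.Strip051.Box Pool.Agent.Strip051.Box2 Pool.Agent.Strip051.LB.Fd Pool.Agent.Strip051.LB.Fn Pool.Agent.Strip051.LB.Fn.F2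

variable {E : Pt} {A1 A2 A3 A4 A5 A6 A7 A8 : TM} {a1 a2 a3 a4 a5 a6 a7 a8 : ℝ}

def kx2a_t3 (_A1 A2 _A3 : TM) : TM := sw_t (A2)

theorem kx2a_h3 (_h1 : Enc S E A1 a1) (h2 : Enc S E A2 a2) (_h3 : Enc S E A3 a3) : Enc S E (kx2a_t3 A1 A2 A3) (kx2a_v3 a1 a2 a3) := sw_enc (h2)

def kx2a_t4 (_A1 A2 _A3 : TM) : TM := b1q2_t (A2)

theorem kx2a_h4 (_h1 : Enc S E A1 a1) (h2 : Enc S E A2 a2) (_h3 : Enc S E A3 a3) : Enc S E (kx2a_t4 A1 A2 A3) (kx2a_v4 a1 a2 a3) := b1q2_enc (h2)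

def kx2a_t5 (_A1 A2 _A3 : TM) : TM := b2q2_t (A2)

theorem kx2a_h5 (_h1 : Enc S E A1 a1) (h2 : Enc S E A2 a2) (_h3 : Enc S E A3 a3) : Enc S E (kx2a_t5 A1 A2 A3) (kx2a_v5 a1 a2 a3) := b2q2_enc (h2)

def kx2a_t6 (_A1 A2 _A3 : TM) : TM := c3f_t (A2)

theorem kx2a_h6 (_h1 : Enc S E A1 a1) (h2 : Enc S E A2 a2) (_h3 : Enc S E A3 a3) : Enc S E (kx2a_t6 A1 A2 A3) (kx2a_v6 a1 a2 a3) := c3f_enc (h2)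

def kx2a_t7 (A1 A2 A3 : TM) : TM := tadd (A3) (kx2a_t3 A1 A2 A3)

theorem kx2a_h7 (h1 : Enc S E A1 a1) (h2 : Enc S E A2 a2) (h3 : Enc S E A3 a3) : Enc S E (kx2a_t7 A1 A2 A3) (kx2a_v7 a1 a2 a3) := enc_add (h3) (kx2a_h3 h1 h2 h3)

def kx2a_t8 (_A1 _A2 _A3 : TM) : TM := tconst (Nat.div (Nat.mul 1 S) 2) 0 1

theorem kx2a_h8 (_h1 : Enc S E A1 a1) (_h2 : Enc S E A2 a2) (_h3 : Enc S E A3 a3) : Enc S E (kx2a_t8 A1 A2 A3) (kx2a_v8 a1 a2 a3) := enc_rat E 1 (by norm_num)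

def kx2a_t9 (A1 A2 A3 : TM) : TM := tsub (kx2a_t7 A1 A2 A3) (kx2a_t8 A1 A2 A3)

theorem kx2a_h9 (h1 : Enc S E A1 a1) (h2 : Enc S E A2 a2) (h3 : Enc S E A3 a3) : Enc S E (kx2a_t9 A1 A2 A3) (kx2a_v9 a1 a2 a3) := enc_sub (kx2a_h7 h1 h2 h3) (kx2a_h8 h1 h2 h3)

def kx2a_t10 (A1 A2 A3 : TM) : TM := tscale 1 2 (kx2a_t9 A1 A2 A3)

theorem kx2a_h10 (h1 : Enc S E A1 a1) (h2 : Enc S E A2 a2) (h3 : Enc S E A3 a3) : Enc S E (kx2a_t10 A1 A2 A3) (kx2a_v10 a1 a2 a3) := enc_scale 1 (by norm_num) (kx2a_h9 h1 h2 h3)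

def kx2a_t11 (A1 A2 A3 : TM) : TM := tsub (kx2a_t3 A1 A2 A3) (kx2a_t8 A1 A2 A3)

theorem kx2a_h11 (h1 : Enc S E A1 a1) (h2 : Enc S E A2 a2) (h3 : Enc S E A3 a3) : Enc S E (kx2a_t11 A1 A2 A3) (kx2a_v11 a1 a2 a3) := enc_sub (kx2a_h3 h1 h2 h3) (kx2a_h8 h1 h2 h3)

def kx2a_t12 (A1 A2 A3 : TM) : TM := tadd (kx2a_t11 A1 A2 A3) (kx2a_t6 A1 A2 A3)

theorem kx2a_h12 (h1 : Enc S E A1 a1) (h2 : Enc S E A2 a2) (h3 : Enc S E A3 a3) : Enc S E (kx2a_t12 A1 A2 A3) (kx2a_v12 a1 a2 a3) := enc_add (kx2a_h11 h1 h2 h3) (kx2a_h6 h1 h2 h3)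

def kx2a_t13 (A1 A2 A3 : TM) : TM := tscale 1 2 (kx2a_t12 A1 A2 A3)

theorem kx2a_h13 (h1 : Enc S E A1 a1) (h2 : Enc S E A2 a2) (h3 : Enc S E A3 a3) : Enc S E (kx2a_t13 A1 A2 A3) (kx2a_v13 a1 a2 a3) := enc_scale 1 (by norm_num) (kx2a_h12 h1 h2 h3)

def kx2a_t14 (A1 A2 A3 : TM) : TM := tmul S (kx2a_t13 A1 A2 A3) (kx2a_t5 A1 A2 A3)

theorem kx2a_h14 (h1 : Enc S E A1 a1) (h2 : Enc S E A2 a2) (h3 : Enc S E A3 a3) : Enc S E (kx2a_t14 A1 A2 A3) (kx2a_v14 a1 a2 a3) := enc_mul hS (kx2a_h13 h1 h2 h3) (kx2a_h5 h1 h2 h3)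

def kx2a_t15 (A1 A2 A3 : TM) : TM := tmul S (kx2a_t10 A1 A2 A3) (kx2a_t4 A1 A2 A3)

theorem kx2a_h15 (h1 : Enc S E A1 a1) (h2 : Enc S E A2 a2) (h3 : Enc S E A3 a3) : Enc S E (kx2a_t15 A1 A2 A3) (kx2a_v15 a1 a2 a3) := enc_mul hS (kx2a_h10 h1 h2 h3) (kx2a_h4 h1 h2 h3)

def kx2a_t16 (A1 A2 A3 : TM) : TM := tsub (kx2a_t14 A1 A2 A3) (kx2a_t15 A1 A2 A3)

theorem kx2a_h16 (h1 : Enc S E A1 a1) (h2 : Enc S E A2 a2) (h3 : Enc S E A3 a3) : Enc S E (kx2a_t16 A1 A2 A3) (kx2a_v16 a1 a2 a3) := enc_sub (kx2a_h14 h1 h2 h3) (kx2a_h15 h1 h2 h3)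

def kx2a_t17 (A1 A2 A3 : TM) : TM := tsub (kx2a_t13 A1 A2 A3) (kx2a_t10 A1 A2 A3)

theorem kx2a_h17 (h1 : Enc S E A1 a1) (h2 : Enc S E A2 a2) (h3 : Enc S E A3 a3) : Enc S E (kx2a_t17 A1 A2 A3) (kx2a_v17 a1 a2 a3) := enc_sub (kx2a_h13 h1 h2 h3) (kx2a_h10 h1 h2 h3)

def kx2a_t18 (A1 A2 A3 : TM) : TM := tinv S (kx2a_t17 A1 A2 A3)

theorem kx2a_h18 (h1 : Enc S E A1 a1) (h2 : Enc S E A2 a2) (h3 : Enc S E A3 a3) : Enc S E (kx2a_t18 A1 A2 A3) (kx2a_v18 a1 a2 a3) := enc_inv hS (kx2a_h17 h1 h2 h3)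

def kx2a_t19 (A1 A2 A3 : TM) : TM := tmul S (kx2a_t16 A1 A2 A3) (kx2a_t18 A1 A2 A3)

theorem kx2a_h19 (h1 : Enc S E A1 a1) (h2 : Enc S E A2 a2) (h3 : Enc S E A3 a3) : Enc S E (kx2a_t19 A1 A2 A3) (kx2a_v19 a1 a2 a3) := enc_mul hS (kx2a_h16 h1 h2 h3) (kx2a_h18 h1 h2 h3)

def kx2a_t20 (_A1 _A2 _A3 : TM) : TM := tconst (Nat.mul 1 S) 0 0

theorem kx2a_h20 (_h1 : Enc S E A1 a1) (_h2 : Enc S E A2 a2) (_h3 : Enc S E A3 a3) : Enc S E (kx2a_t20 A1 A2 A3) (kx2a_v20 a1 a2 a3) := enc_nc E 1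

def kx2a_t21 (A1 A2 A3 : TM) : TM := tsub (kx2a_t19 A1 A2 A3) (kx2a_t20 A1 A2 A3)

theorem kx2a_h21 (h1 : Enc S E A1 a1) (h2 : Enc S E A2 a2) (h3 : Enc S E A3 a3) : Enc S E (kx2a_t21 A1 A2 A3) (kx2a_v21 a1 a2 a3) := enc_sub (kx2a_h19 h1 h2 h3) (kx2a_h20 h1 h2 h3)

def kx2a_t22 (_A1 _A2 _A3 : TM) : TM := tconst 1859775393 0 1

theorem kx2a_h22 (_h1 : Enc S E A1 a1) (_h2 : Enc S E A2 a2) (_h3 : Enc S E A3 a3) : Enc S E (kx2a_t22 A1 A2 A3) (kx2a_v22 a1 a2 a3) := enc_sqrtn E (by decide) (by decide)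

def kx2a_t23 (A1 A2 A3 : TM) : TM := tscale 1 2 (kx2a_t22 A1 A2 A3)

theorem kx2a_h23 (h1 : Enc S E A1 a1) (h2 : Enc S E A2 a2) (h3 : Enc S E A3 a3) : Enc S E (kx2a_t23 A1 A2 A3) (kx2a_v23 a1 a2 a3) := enc_scale 1 (by norm_num) (kx2a_h22 h1 h2 h3)

def kx2a_t24 (A1 A2 A3 : TM) : TM := tadd (A2) (kx2a_t23 A1 A2 A3)

theorem kx2a_h24 (h1 : Enc S E A1 a1) (h2 : Enc S E A2 a2) (h3 : Enc S E A3 a3) : Enc S E (kx2a_t24 A1 A2 A3) (kx2a_v24 a1 a2 a3) := enc_add (h2) (kx2a_h23 h1 h2 h3)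

def kx2a_t25 (A1 A2 A3 : TM) : TM := tadd (kx2a_t8 A1 A2 A3) (A3)

theorem kx2a_h25 (h1 : Enc S E A1 a1) (h2 : Enc S E A2 a2) (h3 : Enc S E A3 a3) : Enc S E (kx2a_t25 A1 A2 A3) (kx2a_v25 a1 a2 a3) := enc_add (kx2a_h8 h1 h2 h3) (h3)

def kx2a_t26 (A1 A2 A3 : TM) : TM := tinv S (kx2a_t25 A1 A2 A3)

theorem kx2a_h26 (h1 : Enc S E A1 a1) (h2 : Enc S E A2 a2) (h3 : Enc S E A3 a3) : Enc S E (kx2a_t26 A1 A2 A3) (kx2a_v26 a1 a2 a3) := enc_inv hS (kx2a_h25 h1 h2 h3)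

def kx2a_t27 (A1 A2 A3 : TM) : TM := tmul S (kx2a_t24 A1 A2 A3) (kx2a_t26 A1 A2 A3)

theorem kx2a_h27 (h1 : Enc S E A1 a1) (h2 : Enc S E A2 a2) (h3 : Enc S E A3 a3) : Enc S E (kx2a_t27 A1 A2 A3) (kx2a_v27 a1 a2 a3) := enc_mul hS (kx2a_h24 h1 h2 h3) (kx2a_h26 h1 h2 h3)

def kx2a_t28 (A1 A2 A3 : TM) : TM := tsub (A2) (kx2a_t23 A1 A2 A3)

theorem kx2a_h28 (h1 : Enc S E A1 a1) (h2 : Enc S E A2 a2) (h3 : Enc S E A3 a3) : Enc S E (kx2a_t28 A1 A2 A3) (kx2a_v28 a1 a2 a3) := enc_sub (h2) (kx2a_h23 h1 h2 h3)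

def kx2a_t29 (A1 A2 A3 : TM) : TM := tadd (kx2a_t20 A1 A2 A3) (kx2a_t3 A1 A2 A3)

theorem kx2a_h29 (h1 : Enc S E A1 a1) (h2 : Enc S E A2 a2) (h3 : Enc S E A3 a3) : Enc S E (kx2a_t29 A1 A2 A3) (kx2a_v29 a1 a2 a3) := enc_add (kx2a_h20 h1 h2 h3) (kx2a_h3 h1 h2 h3)

def kx2a_t30 (A1 A2 A3 : TM) : TM := tinv S (kx2a_t29 A1 A2 A3)

theorem kx2a_h30 (h1 : Enc S E A1 a1) (h2 : Enc S E A2 a2) (h3 : Enc S E A3 a3) : Enc S E (kx2a_t30 A1 A2 A3) (kx2a_v30 a1 a2 a3) := enc_inv hS (kx2a_h29 h1 h2 h3)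

def kx2a_t31 (A1 A2 A3 : TM) : TM := tmul S (kx2a_t28 A1 A2 A3) (kx2a_t30 A1 A2 A3)

theorem kx2a_h31 (h1 : Enc S E A1 a1) (h2 : Enc S E A2 a2) (h3 : Enc S E A3 a3) : Enc S E (kx2a_t31 A1 A2 A3) (kx2a_v31 a1 a2 a3) := enc_mul hS (kx2a_h28 h1 h2 h3) (kx2a_h30 h1 h2 h3)

def kx2a_t32 (A1 A2 A3 : TM) : TM := tsub (kx2a_t27 A1 A2 A3) (kx2a_t31 A1 A2 A3)

theorem kx2a_h32 (h1 : Enc S E A1 a1) (h2 : Enc S E A2 a2) (h3 : Enc S E A3 a3) : Enc S E (kx2a_t32 A1 A2 A3) (kx2a_v32 a1 a2 a3) := enc_sub (kx2a_h27 h1 h2 h3) (kx2a_h31 h1 h2 h3)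

def kx2a_t33 (A1 A2 A3 : TM) : TM := tscale 1 2 (kx2a_t32 A1 A2 A3)

theorem kx2a_h33 (h1 : Enc S E A1 a1) (h2 : Enc S E A2 a2) (h3 : Enc S E A3 a3) : Enc S E (kx2a_t33 A1 A2 A3) (kx2a_v33 a1 a2 a3) := enc_scale 1 (by norm_num) (kx2a_h32 h1 h2 h3)

def kx2a_t35 (A1 A2 A3 : TM) : TM := tscale 98 375 (kx2a_t22 A1 A2 A3)

theorem kx2a_h35 (h1 : Enc S E A1 a1) (h2 : Enc S E A2 a2) (h3 : Enc S E A3 a3) : Enc S E (kx2a_t35 A1 A2 A3) (kx2a_v35 a1 a2 a3) := enc_scale 98 (by norm_num) (kx2a_h22 h1 h2 h3)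

def kx2a_t37 (A1 A2 A3 : TM) : TM := tmul S (kx2a_t35 A1 A2 A3) (kx2a_t10 A1 A2 A3)

theorem kx2a_h37 (h1 : Enc S E A1 a1) (h2 : Enc S E A2 a2) (h3 : Enc S E A3 a3) : Enc S E (kx2a_t37 A1 A2 A3) (kx2a_v37 a1 a2 a3) := enc_mul hS (kx2a_h35 h1 h2 h3) (kx2a_h10 h1 h2 h3)

def kx2a_t39 (A1 A2 A3 : TM) : TM := tinv S (kx2a_t33 A1 A2 A3)

theorem kx2a_h39 (h1 : Enc S E A1 a1) (h2 : Enc S E A2 a2) (h3 : Enc S E A3 a3) : Enc S E (kx2a_t39 A1 A2 A3) (kx2a_v39 a1 a2 a3) := enc_inv hS (kx2a_h33 h1 h2 h3)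

def kx2a_t40 (A1 A2 A3 : TM) : TM := tmul S (kx2a_t37 A1 A2 A3) (kx2a_t39 A1 A2 A3)

theorem kx2a_h40 (h1 : Enc S E A1 a1) (h2 : Enc S E A2 a2) (h3 : Enc S E A3 a3) : Enc S E (kx2a_t40 A1 A2 A3) (kx2a_v40 a1 a2 a3) := enc_mul hS (kx2a_h37 h1 h2 h3) (kx2a_h39 h1 h2 h3)

def kx2a_t41 (A1 A2 A3 : TM) : TM := tneg (kx2a_t40 A1 A2 A3)

theorem kx2a_h41 (h1 : Enc S E A1 a1) (h2 : Enc S E A2 a2) (h3 : Enc S E A3 a3) : Enc S E (kx2a_t41 A1 A2 A3) (kx2a_v41 a1 a2 a3) := enc_neg (kx2a_h40 h1 h2 h3)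

def kx2a_t42 (A1 A2 A3 : TM) : TM := tsub (A1) (kx2a_t10 A1 A2 A3)

theorem kx2a_h42 (h1 : Enc S E A1 a1) (h2 : Enc S E A2 a2) (h3 : Enc S E A3 a3) : Enc S E (kx2a_t42 A1 A2 A3) (kx2a_v42 a1 a2 a3) := enc_sub (h1) (kx2a_h10 h1 h2 h3)

def kx2a_t43 (A1 A2 A3 : TM) : TM := tsub (kx2a_t10 A1 A2 A3) (A3)

theorem kx2a_h43 (h1 : Enc S E A1 a1) (h2 : Enc S E A2 a2) (h3 : Enc S E A3 a3) : Enc S E (kx2a_t43 A1 A2 A3) (kx2a_v43 a1 a2 a3) := enc_sub (kx2a_h10 h1 h2 h3) (h3)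

def kx2a_t44 (A1 _A2 A3 : TM) : TM := tsub (A1) (A3)

theorem kx2a_h44 (h1 : Enc S E A1 a1) (_h2 : Enc S E A2 a2) (h3 : Enc S E A3 a3) : Enc S E (kx2a_t44 A1 A2 A3) (kx2a_v44 a1 a2 a3) := enc_sub (h1) (h3)

def kx2a_t45 (A1 A2 A3 : TM) : TM := tlam S (kx2a_t43 A1 A2 A3) (kx2a_t44 A1 A2 A3)

theorem kx2a_h45 (h1 : Enc S E A1 a1) (h2 : Enc S E A2 a2) (h3 : Enc S E A3 a3) : Enc S E (kx2a_t45 A1 A2 A3) (kx2a_v45 a1 a2 a3) := enc_lam hS (kx2a_h43 h1 h2 h3) (kx2a_h44 h1 h2 h3)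

def kx2a_t46 (A1 A2 A3 : TM) : TM := tsub (kx2a_t41 A1 A2 A3) (kx2a_t21 A1 A2 A3)

theorem kx2a_h46 (h1 : Enc S E A1 a1) (h2 : Enc S E A2 a2) (h3 : Enc S E A3 a3) : Enc S E (kx2a_t46 A1 A2 A3) (kx2a_v46 a1 a2 a3) := enc_sub (kx2a_h41 h1 h2 h3) (kx2a_h21 h1 h2 h3)

def kx2a_t47 (A1 A2 A3 : TM) : TM := tmul S (kx2a_t45 A1 A2 A3) (kx2a_t46 A1 A2 A3)

theorem kx2a_h47 (h1 : Enc S E A1 a1) (h2 : Enc S E A2 a2) (h3 : Enc S E A3 a3) : Enc S E (kx2a_t47 A1 A2 A3) (kx2a_v47 a1 a2 a3) := enc_mul hS (kx2a_h45 h1 h2 h3) (kx2a_h46 h1 h2 h3)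

def kx2a_t48 (A1 A2 A3 : TM) : TM := tadd (kx2a_t21 A1 A2 A3) (kx2a_t47 A1 A2 A3)

theorem kx2a_h48 (h1 : Enc S E A1 a1) (h2 : Enc S E A2 a2) (h3 : Enc S E A3 a3) : Enc S E (kx2a_t48 A1 A2 A3) (kx2a_v48 a1 a2 a3) := enc_add (kx2a_h21 h1 h2 h3) (kx2a_h47 h1 h2 h3)

def kx2a_t49 (A1 A2 A3 : TM) : TM := tcase (kx2a_t42 A1 A2 A3) (kx2a_t41 A1 A2 A3) (kx2a_t48 A1 A2 A3)

theorem kx2a_h49 (h1 : Enc S E A1 a1) (h2 : Enc S E A2 a2) (h3 : Enc S E A3 a3) : Enc S E (kx2a_t49 A1 A2 A3) (kx2a_v49 a1 a2 a3) := enc_case hS (kx2a_h42 h1 h2 h3) (kx2a_h41 h1 h2 h3) (kx2a_h48 h1 h2 h3)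

def kx2a_t50 (A1 _A2 A3 : TM) : TM := tadd (A1) (A3)

theorem kx2a_h50 (h1 : Enc S E A1 a1) (_h2 : Enc S E A2 a2) (h3 : Enc S E A3 a3) : Enc S E (kx2a_t50 A1 A2 A3) (kx2a_v50 a1 a2 a3) := enc_add (h1) (h3)

def kx2a_t51 (A1 A2 A3 : TM) : TM := tinv S (kx2a_t50 A1 A2 A3)

theorem kx2a_h51 (h1 : Enc S E A1 a1) (h2 : Enc S E A2 a2) (h3 : Enc S E A3 a3) : Enc S E (kx2a_t51 A1 A2 A3) (kx2a_v51 a1 a2 a3) := enc_inv hS (kx2a_h50 h1 h2 h3)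

def kx2a_t52 (A1 A2 A3 : TM) : TM := tmul S (kx2a_t49 A1 A2 A3) (kx2a_t51 A1 A2 A3)

theorem kx2a_h52 (h1 : Enc S E A1 a1) (h2 : Enc S E A2 a2) (h3 : Enc S E A3 a3) : Enc S E (kx2a_t52 A1 A2 A3) (kx2a_v52 a1 a2 a3) := enc_mul hS (kx2a_h49 h1 h2 h3) (kx2a_h51 h1 h2 h3)

def kx2a_t53 (A1 A2 A3 : TM) : TM := tsub (kx2a_t4 A1 A2 A3) (kx2a_t20 A1 A2 A3)

theorem kx2a_h53 (h1 : Enc S E A1 a1) (h2 : Enc S E A2 a2) (h3 : Enc S E A3 a3) : Enc S E (kx2a_t53 A1 A2 A3) (kx2a_v53 a1 a2 a3) := enc_sub (kx2a_h4 h1 h2 h3) (kx2a_h20 h1 h2 h3)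

def kx2a_t54 (A1 A2 A3 : TM) : TM := tmul S (kx2a_t10 A1 A2 A3) (kx2a_t53 A1 A2 A3)

theorem kx2a_h54 (h1 : Enc S E A1 a1) (h2 : Enc S E A2 a2) (h3 : Enc S E A3 a3) : Enc S E (kx2a_t54 A1 A2 A3) (kx2a_v54 a1 a2 a3) := enc_mul hS (kx2a_h10 h1 h2 h3) (kx2a_h53 h1 h2 h3)

def kx2a_t55 (A1 A2 A3 : TM) : TM := tinv S (kx2a_t43 A1 A2 A3)

theorem kx2a_h55 (h1 : Enc S E A1 a1) (h2 : Enc S E A2 a2) (h3 : Enc S E A3 a3) : Enc S E (kx2a_t55 A1 A2 A3) (kx2a_v55 a1 a2 a3) := enc_inv hS (kx2a_h43 h1 h2 h3)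

def kx2a_t56 (A1 A2 A3 : TM) : TM := tmul S (kx2a_t54 A1 A2 A3) (kx2a_t55 A1 A2 A3)

theorem kx2a_h56 (h1 : Enc S E A1 a1) (h2 : Enc S E A2 a2) (h3 : Enc S E A3 a3) : Enc S E (kx2a_t56 A1 A2 A3) (kx2a_v56 a1 a2 a3) := enc_mul hS (kx2a_h54 h1 h2 h3) (kx2a_h55 h1 h2 h3)

def kx2a_t57 (A1 A2 A3 : TM) : TM := tscale 9 16 (kx2a_t22 A1 A2 A3)

theorem kx2a_h57 (h1 : Enc S E A1 a1) (h2 : Enc S E A2 a2) (h3 : Enc S E A3 a3) : Enc S E (kx2a_t57 A1 A2 A3) (kx2a_v57 a1 a2 a3) := enc_scale 9 (by norm_num) (kx2a_h22 h1 h2 h3)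

def kx2a_t58 (A1 A2 A3 : TM) : TM := tsub (kx2a_t20 A1 A2 A3) (kx2a_t57 A1 A2 A3)

theorem kx2a_h58 (h1 : Enc S E A1 a1) (h2 : Enc S E A2 a2) (h3 : Enc S E A3 a3) : Enc S E (kx2a_t58 A1 A2 A3) (kx2a_v58 a1 a2 a3) := enc_sub (kx2a_h20 h1 h2 h3) (kx2a_h57 h1 h2 h3)

def kx2a_t60 (A1 A2 A3 : TM) : TM := tinv S (kx2a_t58 A1 A2 A3)

theorem kx2a_h60 (h1 : Enc S E A1 a1) (h2 : Enc S E A2 a2) (h3 : Enc S E A3 a3) : Enc S E (kx2a_t60 A1 A2 A3) (kx2a_v60 a1 a2 a3) := enc_inv hS (kx2a_h58 h1 h2 h3)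

def kx2a_t61 (A1 A2 A3 : TM) : TM := tscale 49 1000 (kx2a_t60 A1 A2 A3)

theorem kx2a_h61 (h1 : Enc S E A1 a1) (h2 : Enc S E A2 a2) (h3 : Enc S E A3 a3) : Enc S E (kx2a_t61 A1 A2 A3) (kx2a_v61 a1 a2 a3) := enc_scale 49 (by norm_num) (kx2a_h60 h1 h2 h3)

def kx2a_t62 (A1 A2 A3 : TM) : TM := tmul S (kx2a_t61 A1 A2 A3) (A3)

theorem kx2a_h62 (h1 : Enc S E A1 a1) (h2 : Enc S E A2 a2) (h3 : Enc S E A3 a3) : Enc S E (kx2a_t62 A1 A2 A3) (kx2a_v62 a1 a2 a3) := enc_mul hS (kx2a_h61 h1 h2 h3) (h3)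

def kx2a_t63 (A1 A2 A3 : TM) : TM := tlam S (A3) (kx2a_t50 A1 A2 A3)

theorem kx2a_h63 (h1 : Enc S E A1 a1) (h2 : Enc S E A2 a2) (h3 : Enc S E A3 a3) : Enc S E (kx2a_t63 A1 A2 A3) (kx2a_v63 a1 a2 a3) := enc_lam hS (h3) (kx2a_h50 h1 h2 h3)

def kx2a_t64 (A1 A2 A3 : TM) : TM := tmul S (kx2a_t62 A1 A2 A3) (kx2a_t63 A1 A2 A3)

theorem kx2a_h64 (h1 : Enc S E A1 a1) (h2 : Enc S E A2 a2) (h3 : Enc S E A3 a3) : Enc S E (kx2a_t64 A1 A2 A3) (kx2a_v64 a1 a2 a3) := enc_mul hS (kx2a_h62 h1 h2 h3) (kx2a_h63 h1 h2 h3)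

def kx2a_t65 (A1 A2 A3 : TM) : TM := tmul S (kx2a_t64 A1 A2 A3) (kx2a_t10 A1 A2 A3)

theorem kx2a_h65 (h1 : Enc S E A1 a1) (h2 : Enc S E A2 a2) (h3 : Enc S E A3 a3) : Enc S E (kx2a_t65 A1 A2 A3) (kx2a_v65 a1 a2 a3) := enc_mul hS (kx2a_h64 h1 h2 h3) (kx2a_h10 h1 h2 h3)

def kx2a_t67 (A1 A2 A3 : TM) : TM := tadd (kx2a_t20 A1 A2 A3) (A2)

theorem kx2a_h67 (h1 : Enc S E A1 a1) (h2 : Enc S E A2 a2) (h3 : Enc S E A3 a3) : Enc S E (kx2a_t67 A1 A2 A3) (kx2a_v67 a1 a2 a3) := enc_add (kx2a_h20 h1 h2 h3) (h2)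

def kx2a_t68 (A1 A2 A3 : TM) : TM := tmul S (kx2a_t67 A1 A2 A3) (kx2a_t43 A1 A2 A3)

theorem kx2a_h68 (h1 : Enc S E A1 a1) (h2 : Enc S E A2 a2) (h3 : Enc S E A3 a3) : Enc S E (kx2a_t68 A1 A2 A3) (kx2a_v68 a1 a2 a3) := enc_mul hS (kx2a_h67 h1 h2 h3) (kx2a_h43 h1 h2 h3)

def kx2a_t69 (A1 A2 A3 : TM) : TM := tinv S (kx2a_t68 A1 A2 A3)

theorem kx2a_h69 (h1 : Enc S E A1 a1) (h2 : Enc S E A2 a2) (h3 : Enc S E A3 a3) : Enc S E (kx2a_t69 A1 A2 A3) (kx2a_v69 a1 a2 a3) := enc_inv hS (kx2a_h68 h1 h2 h3)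

def kx2a_t70 (A1 A2 A3 : TM) : TM := tmul S (kx2a_t65 A1 A2 A3) (kx2a_t69 A1 A2 A3)

theorem kx2a_h70 (h1 : Enc S E A1 a1) (h2 : Enc S E A2 a2) (h3 : Enc S E A3 a3) : Enc S E (kx2a_t70 A1 A2 A3) (kx2a_v70 a1 a2 a3) := enc_mul hS (kx2a_h65 h1 h2 h3) (kx2a_h69 h1 h2 h3)

def kx2a_t71 (A1 A2 A3 : TM) : TM := tneg (kx2a_t70 A1 A2 A3)

theorem kx2a_h71 (h1 : Enc S E A1 a1) (h2 : Enc S E A2 a2) (h3 : Enc S E A3 a3) : Enc S E (kx2a_t71 A1 A2 A3) (kx2a_v71 a1 a2 a3) := enc_neg (kx2a_h70 h1 h2 h3)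

def kx2a_t72 (A1 A2 A3 : TM) : TM := tsub (kx2a_t56 A1 A2 A3) (kx2a_t21 A1 A2 A3)

theorem kx2a_h72 (h1 : Enc S E A1 a1) (h2 : Enc S E A2 a2) (h3 : Enc S E A3 a3) : Enc S E (kx2a_t72 A1 A2 A3) (kx2a_v72 a1 a2 a3) := enc_sub (kx2a_h56 h1 h2 h3) (kx2a_h21 h1 h2 h3)

def kx2a_t73 (A1 A2 A3 : TM) : TM := tmul S (kx2a_t45 A1 A2 A3) (kx2a_t72 A1 A2 A3)

theorem kx2a_h73 (h1 : Enc S E A1 a1) (h2 : Enc S E A2 a2) (h3 : Enc S E A3 a3) : Enc S E (kx2a_t73 A1 A2 A3) (kx2a_v73 a1 a2 a3) := enc_mul hS (kx2a_h45 h1 h2 h3) (kx2a_h72 h1 h2 h3)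

def kx2a_t74 (A1 A2 A3 : TM) : TM := tadd (kx2a_t21 A1 A2 A3) (kx2a_t73 A1 A2 A3)

theorem kx2a_h74 (h1 : Enc S E A1 a1) (h2 : Enc S E A2 a2) (h3 : Enc S E A3 a3) : Enc S E (kx2a_t74 A1 A2 A3) (kx2a_v74 a1 a2 a3) := enc_add (kx2a_h21 h1 h2 h3) (kx2a_h73 h1 h2 h3)

def kx2a_t75 (A1 A2 A3 : TM) : TM := tmul S (kx2a_t74 A1 A2 A3) (kx2a_t51 A1 A2 A3)

theorem kx2a_h75 (h1 : Enc S E A1 a1) (h2 : Enc S E A2 a2) (h3 : Enc S E A3 a3) : Enc S E (kx2a_t75 A1 A2 A3) (kx2a_v75 a1 a2 a3) := enc_mul hS (kx2a_h74 h1 h2 h3) (kx2a_h51 h1 h2 h3)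

def kx2a_t76 (A1 A2 A3 : TM) : TM := tcase (kx2a_t42 A1 A2 A3) (kx2a_t71 A1 A2 A3) (kx2a_t75 A1 A2 A3)

theorem kx2a_h76 (h1 : Enc S E A1 a1) (h2 : Enc S E A2 a2) (h3 : Enc S E A3 a3) : Enc S E (kx2a_t76 A1 A2 A3) (kx2a_v76 a1 a2 a3) := enc_case hS (kx2a_h42 h1 h2 h3) (kx2a_h71 h1 h2 h3) (kx2a_h75 h1 h2 h3)

def kx2a_t77 (A1 A2 A3 : TM) : TM := tsub (A2) (kx2a_t57 A1 A2 A3)

theorem kx2a_h77 (h1 : Enc S E A1 a1) (h2 : Enc S E A2 a2) (h3 : Enc S E A3 a3) : Enc S E (kx2a_t77 A1 A2 A3) (kx2a_v77 a1 a2 a3) := enc_sub (h2) (kx2a_h57 h1 h2 h3)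

def kx2a_t78 (A1 A2 A3 : TM) : TM := tcase (kx2a_t77 A1 A2 A3) (kx2a_t52 A1 A2 A3) (kx2a_t76 A1 A2 A3)

theorem kx2a_h78 (h1 : Enc S E A1 a1) (h2 : Enc S E A2 a2) (h3 : Enc S E A3 a3) : Enc S E (kx2a_t78 A1 A2 A3) (kx2a_v78 a1 a2 a3) := enc_case hS (kx2a_h77 h1 h2 h3) (kx2a_h52 h1 h2 h3) (kx2a_h76 h1 h2 h3)

def kx2a_t (A1 A2 A3 : TM) : TM := kx2a_t78 A1 A2 A3

theorem kx2a_enc (h1 : Enc S E A1 a1) (h2 : Enc S E A2 a2) (h3 : Enc S E A3 a3) : Enc S E (kx2a_t A1 A2 A3) (kx2a_v a1 a2 a3) := kx2a_h78 h1 h2 h3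

def kx2b_t2 (_A1 A2 : TM) : TM := sw_t (A2)

theorem kx2b_h2 (_h1 : Enc S E A1 a1) (h2 : Enc S E A2 a2) : Enc S E (kx2b_t2 A1 A2) (kx2b_v2 a1 a2) := sw_enc (h2)

def kx2b_t3 (_A1 _A2 : TM) : TM := tconst (Nat.mul 1 S) 0 0

theorem kx2b_h3 (_h1 : Enc S E A1 a1) (_h2 : Enc S E A2 a2) : Enc S E (kx2b_t3 A1 A2) (kx2b_v3 a1 a2) := enc_nc E 1

def kx2b_t4 (A1 A2 : TM) : TM := tsub (A2) (kx2b_t3 A1 A2)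

theorem kx2b_h4 (h1 : Enc S E A1 a1) (h2 : Enc S E A2 a2) : Enc S E (kx2b_t4 A1 A2) (kx2b_v4 a1 a2) := enc_sub (h2) (kx2b_h3 h1 h2)

def kx2b_t5 (A1 A2 : TM) : TM := tscale 1033 1000 (kx2b_t4 A1 A2)

theorem kx2b_h5 (h1 : Enc S E A1 a1) (h2 : Enc S E A2 a2) : Enc S E (kx2b_t5 A1 A2) (kx2b_v5 a1 a2) := enc_scale 1033 (by norm_num) (kx2b_h4 h1 h2)

def kx2b_t6 (_A1 _A2 : TM) : TM := tconst 1859775393 0 1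

theorem kx2b_h6 (_h1 : Enc S E A1 a1) (_h2 : Enc S E A2 a2) : Enc S E (kx2b_t6 A1 A2) (kx2b_v6 a1 a2) := enc_sqrtn E (by decide) (by decide)

def kx2b_t8 (A1 A2 : TM) : TM := tscale 3 4 (kx2b_t6 A1 A2)

theorem kx2b_h8 (h1 : Enc S E A1 a1) (h2 : Enc S E A2 a2) : Enc S E (kx2b_t8 A1 A2) (kx2b_v8 a1 a2) := enc_scale 3 (by norm_num) (kx2b_h6 h1 h2)

def kx2b_t9 (A1 A2 : TM) : TM := tsub (kx2b_t8 A1 A2) (kx2b_t3 A1 A2)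

theorem kx2b_h9 (h1 : Enc S E A1 a1) (h2 : Enc S E A2 a2) : Enc S E (kx2b_t9 A1 A2) (kx2b_v9 a1 a2) := enc_sub (kx2b_h8 h1 h2) (kx2b_h3 h1 h2)

def kx2b_t10 (A1 A2 : TM) : TM := tinv S (kx2b_t9 A1 A2)

theorem kx2b_h10 (h1 : Enc S E A1 a1) (h2 : Enc S E A2 a2) : Enc S E (kx2b_t10 A1 A2) (kx2b_v10 a1 a2) := enc_inv hS (kx2b_h9 h1 h2)

def kx2b_t11 (A1 A2 : TM) : TM := tmul S (kx2b_t5 A1 A2) (kx2b_t10 A1 A2)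

theorem kx2b_h11 (h1 : Enc S E A1 a1) (h2 : Enc S E A2 a2) : Enc S E (kx2b_t11 A1 A2) (kx2b_v11 a1 a2) := enc_mul hS (kx2b_h5 h1 h2) (kx2b_h10 h1 h2)

def kx2b_t12 (A1 A2 : TM) : TM := tsub (kx2b_t3 A1 A2) (kx2b_t11 A1 A2)

theorem kx2b_h12 (h1 : Enc S E A1 a1) (h2 : Enc S E A2 a2) : Enc S E (kx2b_t12 A1 A2) (kx2b_v12 a1 a2) := enc_sub (kx2b_h3 h1 h2) (kx2b_h11 h1 h2)

def kx2b_t13 (_A1 A2 : TM) : TM := b2q2_t (A2)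

theorem kx2b_h13 (_h1 : Enc S E A1 a1) (h2 : Enc S E A2 a2) : Enc S E (kx2b_t13 A1 A2) (kx2b_v13 a1 a2) := b2q2_enc (h2)

def kx2b_t14 (_A1 A2 : TM) : TM := c3f_t (A2)

theorem kx2b_h14 (_h1 : Enc S E A1 a1) (h2 : Enc S E A2 a2) : Enc S E (kx2b_t14 A1 A2) (kx2b_v14 a1 a2) := c3f_enc (h2)

def kx2b_t15 (_A1 _A2 : TM) : TM := tconst (Nat.div (Nat.mul 1 S) 2) 0 1

theorem kx2b_h15 (_h1 : Enc S E A1 a1) (_h2 : Enc S E A2 a2) : Enc S E (kx2b_t15 A1 A2) (kx2b_v15 a1 a2) := enc_rat E 1 (by norm_num)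

def kx2b_t16 (A1 A2 : TM) : TM := tsub (kx2b_t2 A1 A2) (kx2b_t15 A1 A2)

theorem kx2b_h16 (h1 : Enc S E A1 a1) (h2 : Enc S E A2 a2) : Enc S E (kx2b_t16 A1 A2) (kx2b_v16 a1 a2) := enc_sub (kx2b_h2 h1 h2) (kx2b_h15 h1 h2)

def kx2b_t17 (A1 A2 : TM) : TM := tscale 1 2 (kx2b_t16 A1 A2)

theorem kx2b_h17 (h1 : Enc S E A1 a1) (h2 : Enc S E A2 a2) : Enc S E (kx2b_t17 A1 A2) (kx2b_v17 a1 a2) := enc_scale 1 (by norm_num) (kx2b_h16 h1 h2)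

def kx2b_t18 (A1 A2 : TM) : TM := tadd (kx2b_t16 A1 A2) (kx2b_t14 A1 A2)

theorem kx2b_h18 (h1 : Enc S E A1 a1) (h2 : Enc S E A2 a2) : Enc S E (kx2b_t18 A1 A2) (kx2b_v18 a1 a2) := enc_add (kx2b_h16 h1 h2) (kx2b_h14 h1 h2)

def kx2b_t19 (A1 A2 : TM) : TM := tscale 1 2 (kx2b_t18 A1 A2)

theorem kx2b_h19 (h1 : Enc S E A1 a1) (h2 : Enc S E A2 a2) : Enc S E (kx2b_t19 A1 A2) (kx2b_v19 a1 a2) := enc_scale 1 (by norm_num) (kx2b_h18 h1 h2)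

def kx2b_t20 (A1 A2 : TM) : TM := tmul S (kx2b_t19 A1 A2) (kx2b_t13 A1 A2)

theorem kx2b_h20 (h1 : Enc S E A1 a1) (h2 : Enc S E A2 a2) : Enc S E (kx2b_t20 A1 A2) (kx2b_v20 a1 a2) := enc_mul hS (kx2b_h19 h1 h2) (kx2b_h13 h1 h2)

def kx2b_t21 (A1 A2 : TM) : TM := tmul S (kx2b_t17 A1 A2) (kx2b_t12 A1 A2)

theorem kx2b_h21 (h1 : Enc S E A1 a1) (h2 : Enc S E A2 a2) : Enc S E (kx2b_t21 A1 A2) (kx2b_v21 a1 a2) := enc_mul hS (kx2b_h17 h1 h2) (kx2b_h12 h1 h2)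

def kx2b_t22 (A1 A2 : TM) : TM := tsub (kx2b_t20 A1 A2) (kx2b_t21 A1 A2)

theorem kx2b_h22 (h1 : Enc S E A1 a1) (h2 : Enc S E A2 a2) : Enc S E (kx2b_t22 A1 A2) (kx2b_v22 a1 a2) := enc_sub (kx2b_h20 h1 h2) (kx2b_h21 h1 h2)

def kx2b_t23 (A1 A2 : TM) : TM := tsub (kx2b_t19 A1 A2) (kx2b_t17 A1 A2)

theorem kx2b_h23 (h1 : Enc S E A1 a1) (h2 : Enc S E A2 a2) : Enc S E (kx2b_t23 A1 A2) (kx2b_v23 a1 a2) := enc_sub (kx2b_h19 h1 h2) (kx2b_h17 h1 h2)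

def kx2b_t24 (A1 A2 : TM) : TM := tinv S (kx2b_t23 A1 A2)

theorem kx2b_h24 (h1 : Enc S E A1 a1) (h2 : Enc S E A2 a2) : Enc S E (kx2b_t24 A1 A2) (kx2b_v24 a1 a2) := enc_inv hS (kx2b_h23 h1 h2)

def kx2b_t25 (A1 A2 : TM) : TM := tmul S (kx2b_t22 A1 A2) (kx2b_t24 A1 A2)

theorem kx2b_h25 (h1 : Enc S E A1 a1) (h2 : Enc S E A2 a2) : Enc S E (kx2b_t25 A1 A2) (kx2b_v25 a1 a2) := enc_mul hS (kx2b_h22 h1 h2) (kx2b_h24 h1 h2)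

def kx2b_t26 (A1 A2 : TM) : TM := tsub (kx2b_t25 A1 A2) (kx2b_t3 A1 A2)

theorem kx2b_h26 (h1 : Enc S E A1 a1) (h2 : Enc S E A2 a2) : Enc S E (kx2b_t26 A1 A2) (kx2b_v26 a1 a2) := enc_sub (kx2b_h25 h1 h2) (kx2b_h3 h1 h2)

def kx2b_t28 (A1 A2 : TM) : TM := tscale 1033 1000 (kx2b_t10 A1 A2)

theorem kx2b_h28 (h1 : Enc S E A1 a1) (h2 : Enc S E A2 a2) : Enc S E (kx2b_t28 A1 A2) (kx2b_v28 a1 a2) := enc_scale 1033 (by norm_num) (kx2b_h10 h1 h2)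

def kx2b_t29 (A1 _A2 : TM) : TM := tsq S (A1)

theorem kx2b_h29 (h1 : Enc S E A1 a1) (_h2 : Enc S E A2 a2) : Enc S E (kx2b_t29 A1 A2) (kx2b_v29 a1 a2) := enc_sq hS (h1)

def kx2b_t30 (_A1 A2 : TM) : TM := tsq S (A2)

theorem kx2b_h30 (_h1 : Enc S E A1 a1) (h2 : Enc S E A2 a2) : Enc S E (kx2b_t30 A1 A2) (kx2b_v30 a1 a2) := enc_sq hS (h2)

def kx2b_t31 (A1 A2 : TM) : TM := tadd (kx2b_t29 A1 A2) (kx2b_t30 A1 A2)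

theorem kx2b_h31 (h1 : Enc S E A1 a1) (h2 : Enc S E A2 a2) : Enc S E (kx2b_t31 A1 A2) (kx2b_v31 a1 a2) := enc_add (kx2b_h29 h1 h2) (kx2b_h30 h1 h2)

def kx2b_t32 (A1 A2 : TM) : TM := tsub (kx2b_t31 A1 A2) (kx2b_t3 A1 A2)

theorem kx2b_h32 (h1 : Enc S E A1 a1) (h2 : Enc S E A2 a2) : Enc S E (kx2b_t32 A1 A2) (kx2b_v32 a1 a2) := enc_sub (kx2b_h31 h1 h2) (kx2b_h3 h1 h2)

def kx2b_t33 (A1 A2 : TM) : TM := tsub (A1) (kx2b_t17 A1 A2)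

theorem kx2b_h33 (h1 : Enc S E A1 a1) (h2 : Enc S E A2 a2) : Enc S E (kx2b_t33 A1 A2) (kx2b_v33 a1 a2) := enc_sub (h1) (kx2b_h17 h1 h2)

def kx2b_t34 (A1 A2 : TM) : TM := tmul S (kx2b_t28 A1 A2) (A1)

theorem kx2b_h34 (h1 : Enc S E A1 a1) (h2 : Enc S E A2 a2) : Enc S E (kx2b_t34 A1 A2) (kx2b_v34 a1 a2) := enc_mul hS (kx2b_h28 h1 h2) (h1)

def kx2b_t35 (A1 A2 : TM) : TM := tsub (kx2b_t30 A1 A2) (kx2b_t3 A1 A2)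

theorem kx2b_h35 (h1 : Enc S E A1 a1) (h2 : Enc S E A2 a2) : Enc S E (kx2b_t35 A1 A2) (kx2b_v35 a1 a2) := enc_sub (kx2b_h30 h1 h2) (kx2b_h3 h1 h2)

def kx2b_t36 (A1 A2 : TM) : TM := tlam S (kx2b_t35 A1 A2) (kx2b_t32 A1 A2)

theorem kx2b_h36 (h1 : Enc S E A1 a1) (h2 : Enc S E A2 a2) : Enc S E (kx2b_t36 A1 A2) (kx2b_v36 a1 a2) := enc_lam hS (kx2b_h35 h1 h2) (kx2b_h32 h1 h2)

def kx2b_t37 (A1 A2 : TM) : TM := tmul S (kx2b_t34 A1 A2) (kx2b_t36 A1 A2)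

theorem kx2b_h37 (h1 : Enc S E A1 a1) (h2 : Enc S E A2 a2) : Enc S E (kx2b_t37 A1 A2) (kx2b_v37 a1 a2) := enc_mul hS (kx2b_h34 h1 h2) (kx2b_h36 h1 h2)

def kx2b_t39 (A1 A2 : TM) : TM := tadd (kx2b_t3 A1 A2) (A2)

theorem kx2b_h39 (h1 : Enc S E A1 a1) (h2 : Enc S E A2 a2) : Enc S E (kx2b_t39 A1 A2) (kx2b_v39 a1 a2) := enc_add (kx2b_h3 h1 h2) (h2)

def kx2b_t40 (A1 A2 : TM) : TM := tinv S (kx2b_t39 A1 A2)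

theorem kx2b_h40 (h1 : Enc S E A1 a1) (h2 : Enc S E A2 a2) : Enc S E (kx2b_t40 A1 A2) (kx2b_v40 a1 a2) := enc_inv hS (kx2b_h39 h1 h2)

def kx2b_t41 (A1 A2 : TM) : TM := tmul S (kx2b_t37 A1 A2) (kx2b_t40 A1 A2)

theorem kx2b_h41 (h1 : Enc S E A1 a1) (h2 : Enc S E A2 a2) : Enc S E (kx2b_t41 A1 A2) (kx2b_v41 a1 a2) := enc_mul hS (kx2b_h37 h1 h2) (kx2b_h40 h1 h2)

def kx2b_t42 (A1 A2 : TM) : TM := tneg (kx2b_t41 A1 A2)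

theorem kx2b_h42 (h1 : Enc S E A1 a1) (h2 : Enc S E A2 a2) : Enc S E (kx2b_t42 A1 A2) (kx2b_v42 a1 a2) := enc_neg (kx2b_h41 h1 h2)

def kx2b_t43 (A1 A2 : TM) : TM := tadd (kx2b_t26 A1 A2) (kx2b_t3 A1 A2)

theorem kx2b_h43 (h1 : Enc S E A1 a1) (h2 : Enc S E A2 a2) : Enc S E (kx2b_t43 A1 A2) (kx2b_v43 a1 a2) := enc_add (kx2b_h26 h1 h2) (kx2b_h3 h1 h2)

def kx2b_t44 (A1 A2 : TM) : TM := tmul S (kx2b_t33 A1 A2) (kx2b_t43 A1 A2)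

theorem kx2b_h44 (h1 : Enc S E A1 a1) (h2 : Enc S E A2 a2) : Enc S E (kx2b_t44 A1 A2) (kx2b_v44 a1 a2) := enc_mul hS (kx2b_h33 h1 h2) (kx2b_h43 h1 h2)

def kx2b_t45 (A1 A2 : TM) : TM := tadd (kx2b_t21 A1 A2) (kx2b_t44 A1 A2)

theorem kx2b_h45 (h1 : Enc S E A1 a1) (h2 : Enc S E A2 a2) : Enc S E (kx2b_t45 A1 A2) (kx2b_v45 a1 a2) := enc_add (kx2b_h21 h1 h2) (kx2b_h44 h1 h2)

def kx2b_t46 (A1 A2 : TM) : TM := tsub (kx2b_t45 A1 A2) (A1)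

theorem kx2b_h46 (h1 : Enc S E A1 a1) (h2 : Enc S E A2 a2) : Enc S E (kx2b_t46 A1 A2) (kx2b_v46 a1 a2) := enc_sub (kx2b_h45 h1 h2) (h1)

def kx2b_t47 (A1 A2 : TM) : TM := tinv S (kx2b_t32 A1 A2)

theorem kx2b_h47 (h1 : Enc S E A1 a1) (h2 : Enc S E A2 a2) : Enc S E (kx2b_t47 A1 A2) (kx2b_v47 a1 a2) := enc_inv hS (kx2b_h32 h1 h2)

def kx2b_t48 (A1 A2 : TM) : TM := tmul S (kx2b_t46 A1 A2) (kx2b_t47 A1 A2)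

theorem kx2b_h48 (h1 : Enc S E A1 a1) (h2 : Enc S E A2 a2) : Enc S E (kx2b_t48 A1 A2) (kx2b_v48 a1 a2) := enc_mul hS (kx2b_h46 h1 h2) (kx2b_h47 h1 h2)

def kx2b_t49 (A1 A2 : TM) : TM := tcase (kx2b_t33 A1 A2) (kx2b_t42 A1 A2) (kx2b_t48 A1 A2)

theorem kx2b_h49 (h1 : Enc S E A1 a1) (h2 : Enc S E A2 a2) : Enc S E (kx2b_t49 A1 A2) (kx2b_v49 a1 a2) := enc_case hS (kx2b_h33 h1 h2) (kx2b_h42 h1 h2) (kx2b_h48 h1 h2)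

def kx2b_t (A1 A2 : TM) : TM := kx2b_t49 A1 A2

theorem kx2b_enc (h1 : Enc S E A1 a1) (h2 : Enc S E A2 a2) : Enc S E (kx2b_t A1 A2) (kx2b_v a1 a2) := kx2b_h49 h1 h2

def kx3z_t4 (_A1 _A2 _A3 _A4 : TM) : TM := tconst 1859775393 0 1

theorem kx3z_h4 (_h1 : Enc S E A1 a1) (_h2 : Enc S E A2 a2) (_h3 : Enc S E A3 a3) (_h4 : Enc S E A4 a4) : Enc S E (kx3z_t4 A1 A2 A3 A4) (kx3z_v4 a1 a2 a3 a4) := enc_sqrtn E (by decide) (by decide)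

def kx3z_t5 (A1 A2 A3 A4 : TM) : TM := tscale 1 2 (kx3z_t4 A1 A2 A3 A4)

theorem kx3z_h5 (h1 : Enc S E A1 a1) (h2 : Enc S E A2 a2) (h3 : Enc S E A3 a3) (h4 : Enc S E A4 a4) : Enc S E (kx3z_t5 A1 A2 A3 A4) (kx3z_v5 a1 a2 a3 a4) := enc_scale 1 (by norm_num) (kx3z_h4 h1 h2 h3 h4)

def kx3z_t6 (A1 A2 A3 A4 : TM) : TM := tinv S (kx3z_t4 A1 A2 A3 A4)

theorem kx3z_h6 (h1 : Enc S E A1 a1) (h2 : Enc S E A2 a2) (h3 : Enc S E A3 a3) (h4 : Enc S E A4 a4) : Enc S E (kx3z_t6 A1 A2 A3 A4) (kx3z_v6 a1 a2 a3 a4) := enc_inv hS (kx3z_h4 h1 h2 h3 h4)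

def kx3z_t7 (A1 A2 A3 A4 : TM) : TM := tmul S (A2) (kx3z_t6 A1 A2 A3 A4)

theorem kx3z_h7 (h1 : Enc S E A1 a1) (h2 : Enc S E A2 a2) (h3 : Enc S E A3 a3) (h4 : Enc S E A4 a4) : Enc S E (kx3z_t7 A1 A2 A3 A4) (kx3z_v7 a1 a2 a3 a4) := enc_mul hS (h2) (kx3z_h6 h1 h2 h3 h4)

def kx3z_t8 (_A1 _A2 _A3 _A4 : TM) : TM := tconst (Nat.mul 1 S) 0 0

theorem kx3z_h8 (_h1 : Enc S E A1 a1) (_h2 : Enc S E A2 a2) (_h3 : Enc S E A3 a3) (_h4 : Enc S E A4 a4) : Enc S E (kx3z_t8 A1 A2 A3 A4) (kx3z_v8 a1 a2 a3 a4) := enc_nc E 1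

def kx3z_t9 (A1 A2 A3 A4 : TM) : TM := tadd (kx3z_t8 A1 A2 A3 A4) (kx3z_t7 A1 A2 A3 A4)

theorem kx3z_h9 (h1 : Enc S E A1 a1) (h2 : Enc S E A2 a2) (h3 : Enc S E A3 a3) (h4 : Enc S E A4 a4) : Enc S E (kx3z_t9 A1 A2 A3 A4) (kx3z_v9 a1 a2 a3 a4) := enc_add (kx3z_h8 h1 h2 h3 h4) (kx3z_h7 h1 h2 h3 h4)

def kx3z_t10 (A1 A2 A3 A4 : TM) : TM := tadd (kx3z_t8 A1 A2 A3 A4) (A4)

theorem kx3z_h10 (h1 : Enc S E A1 a1) (h2 : Enc S E A2 a2) (h3 : Enc S E A3 a3) (h4 : Enc S E A4 a4) : Enc S E (kx3z_t10 A1 A2 A3 A4) (kx3z_v10 a1 a2 a3 a4) := enc_add (kx3z_h8 h1 h2 h3 h4) (h4)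

def kx3z_t11 (A1 A2 A3 A4 : TM) : TM := tlam S (A4) (kx3z_t10 A1 A2 A3 A4)

theorem kx3z_h11 (h1 : Enc S E A1 a1) (h2 : Enc S E A2 a2) (h3 : Enc S E A3 a3) (h4 : Enc S E A4 a4) : Enc S E (kx3z_t11 A1 A2 A3 A4) (kx3z_v11 a1 a2 a3 a4) := enc_lam hS (h4) (kx3z_h10 h1 h2 h3 h4)

def kx3z_t12 (A1 A2 A3 A4 : TM) : TM := tsub (kx3z_t8 A1 A2 A3 A4) (kx3z_t11 A1 A2 A3 A4)

theorem kx3z_h12 (h1 : Enc S E A1 a1) (h2 : Enc S E A2 a2) (h3 : Enc S E A3 a3) (h4 : Enc S E A4 a4) : Enc S E (kx3z_t12 A1 A2 A3 A4) (kx3z_v12 a1 a2 a3 a4) := enc_sub (kx3z_h8 h1 h2 h3 h4) (kx3z_h11 h1 h2 h3 h4)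

def kx3z_t13 (A1 A2 A3 A4 : TM) : TM := tadd (kx3z_t4 A1 A2 A3 A4) (A2)

theorem kx3z_h13 (h1 : Enc S E A1 a1) (h2 : Enc S E A2 a2) (h3 : Enc S E A3 a3) (h4 : Enc S E A4 a4) : Enc S E (kx3z_t13 A1 A2 A3 A4) (kx3z_v13 a1 a2 a3 a4) := enc_add (kx3z_h4 h1 h2 h3 h4) (h2)

def kx3z_t14 (_A1 A2 _A3 _A4 : TM) : TM := sw_t (A2)

theorem kx3z_h14 (_h1 : Enc S E A1 a1) (h2 : Enc S E A2 a2) (_h3 : Enc S E A3 a3) (_h4 : Enc S E A4 a4) : Enc S E (kx3z_t14 A1 A2 A3 A4) (kx3z_v14 a1 a2 a3 a4) := sw_enc (h2)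

def kx3z_t15 (_A1 _A2 _A3 _A4 : TM) : TM := tconst (Nat.div (Nat.mul 1 S) 2) 0 1

theorem kx3z_h15 (_h1 : Enc S E A1 a1) (_h2 : Enc S E A2 a2) (_h3 : Enc S E A3 a3) (_h4 : Enc S E A4 a4) : Enc S E (kx3z_t15 A1 A2 A3 A4) (kx3z_v15 a1 a2 a3 a4) := enc_rat E 1 (by norm_num)

def kx3z_t16 (A1 A2 A3 A4 : TM) : TM := tadd (kx3z_t14 A1 A2 A3 A4) (kx3z_t15 A1 A2 A3 A4)

theorem kx3z_h16 (h1 : Enc S E A1 a1) (h2 : Enc S E A2 a2) (h3 : Enc S E A3 a3) (h4 : Enc S E A4 a4) : Enc S E (kx3z_t16 A1 A2 A3 A4) (kx3z_v16 a1 a2 a3 a4) := enc_add (kx3z_h14 h1 h2 h3 h4) (kx3z_h15 h1 h2 h3 h4)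

def kx3z_t17 (A1 A2 A3 A4 : TM) : TM := tmul S (kx3z_t13 A1 A2 A3 A4) (kx3z_t16 A1 A2 A3 A4)

theorem kx3z_h17 (h1 : Enc S E A1 a1) (h2 : Enc S E A2 a2) (h3 : Enc S E A3 a3) (h4 : Enc S E A4 a4) : Enc S E (kx3z_t17 A1 A2 A3 A4) (kx3z_v17 a1 a2 a3 a4) := enc_mul hS (kx3z_h13 h1 h2 h3 h4) (kx3z_h16 h1 h2 h3 h4)

def kx3z_t18 (A1 A2 A3 A4 : TM) : TM := tinv S (kx3z_t17 A1 A2 A3 A4)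

theorem kx3z_h18 (h1 : Enc S E A1 a1) (h2 : Enc S E A2 a2) (h3 : Enc S E A3 a3) (h4 : Enc S E A4 a4) : Enc S E (kx3z_t18 A1 A2 A3 A4) (kx3z_v18 a1 a2 a3 a4) := enc_inv hS (kx3z_h17 h1 h2 h3 h4)

def kx3z_t19 (A1 A2 A3 A4 : TM) : TM := tmul S (A2) (kx3z_t18 A1 A2 A3 A4)

theorem kx3z_h19 (h1 : Enc S E A1 a1) (h2 : Enc S E A2 a2) (h3 : Enc S E A3 a3) (h4 : Enc S E A4 a4) : Enc S E (kx3z_t19 A1 A2 A3 A4) (kx3z_v19 a1 a2 a3 a4) := enc_mul hS (h2) (kx3z_h18 h1 h2 h3 h4)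

def kx3z_t20 (A1 A2 A3 A4 : TM) : TM := tmul S (kx3z_t4 A1 A2 A3 A4) (kx3z_t13 A1 A2 A3 A4)

theorem kx3z_h20 (h1 : Enc S E A1 a1) (h2 : Enc S E A2 a2) (h3 : Enc S E A3 a3) (h4 : Enc S E A4 a4) : Enc S E (kx3z_t20 A1 A2 A3 A4) (kx3z_v20 a1 a2 a3 a4) := enc_mul hS (kx3z_h4 h1 h2 h3 h4) (kx3z_h13 h1 h2 h3 h4)

def kx3z_t21 (A1 A2 A3 A4 : TM) : TM := tinv S (kx3z_t20 A1 A2 A3 A4)

theorem kx3z_h21 (h1 : Enc S E A1 a1) (h2 : Enc S E A2 a2) (h3 : Enc S E A3 a3) (h4 : Enc S E A4 a4) : Enc S E (kx3z_t21 A1 A2 A3 A4) (kx3z_v21 a1 a2 a3 a4) := enc_inv hS (kx3z_h20 h1 h2 h3 h4)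

def kx3z_t22 (A1 A2 A3 A4 : TM) : TM := tmul S (A3) (kx3z_t21 A1 A2 A3 A4)

theorem kx3z_h22 (h1 : Enc S E A1 a1) (h2 : Enc S E A2 a2) (h3 : Enc S E A3 a3) (h4 : Enc S E A4 a4) : Enc S E (kx3z_t22 A1 A2 A3 A4) (kx3z_v22 a1 a2 a3 a4) := enc_mul hS (h3) (kx3z_h21 h1 h2 h3 h4)

def kx3z_t23 (A1 A2 A3 A4 : TM) : TM := tadd (kx3z_t8 A1 A2 A3 A4) (kx3z_t22 A1 A2 A3 A4)

theorem kx3z_h23 (h1 : Enc S E A1 a1) (h2 : Enc S E A2 a2) (h3 : Enc S E A3 a3) (h4 : Enc S E A4 a4) : Enc S E (kx3z_t23 A1 A2 A3 A4) (kx3z_v23 a1 a2 a3 a4) := enc_add (kx3z_h8 h1 h2 h3 h4) (kx3z_h22 h1 h2 h3 h4)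

def kx3z_t24 (A1 A2 A3 A4 : TM) : TM := tsub (kx3z_t9 A1 A2 A3 A4) (A3)

theorem kx3z_h24 (h1 : Enc S E A1 a1) (h2 : Enc S E A2 a2) (h3 : Enc S E A3 a3) (h4 : Enc S E A4 a4) : Enc S E (kx3z_t24 A1 A2 A3 A4) (kx3z_v24 a1 a2 a3 a4) := enc_sub (kx3z_h9 h1 h2 h3 h4) (h3)

def kx3z_t25 (A1 A2 A3 A4 : TM) : TM := tnat 2 (kx3z_t24 A1 A2 A3 A4)

theorem kx3z_h25 (h1 : Enc S E A1 a1) (h2 : Enc S E A2 a2) (h3 : Enc S E A3 a3) (h4 : Enc S E A4 a4) : Enc S E (kx3z_t25 A1 A2 A3 A4) (kx3z_v25 a1 a2 a3 a4) := enc_nat 2 (kx3z_h24 h1 h2 h3 h4)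

def kx3z_t26 (A1 A2 A3 A4 : TM) : TM := tinv S (kx3z_t25 A1 A2 A3 A4)

theorem kx3z_h26 (h1 : Enc S E A1 a1) (h2 : Enc S E A2 a2) (h3 : Enc S E A3 a3) (h4 : Enc S E A4 a4) : Enc S E (kx3z_t26 A1 A2 A3 A4) (kx3z_v26 a1 a2 a3 a4) := enc_inv hS (kx3z_h25 h1 h2 h3 h4)

def kx3z_t27 (A1 A2 A3 A4 : TM) : TM := tmul S (kx3z_t23 A1 A2 A3 A4) (kx3z_t26 A1 A2 A3 A4)

theorem kx3z_h27 (h1 : Enc S E A1 a1) (h2 : Enc S E A2 a2) (h3 : Enc S E A3 a3) (h4 : Enc S E A4 a4) : Enc S E (kx3z_t27 A1 A2 A3 A4) (kx3z_v27 a1 a2 a3 a4) := enc_mul hS (kx3z_h23 h1 h2 h3 h4) (kx3z_h26 h1 h2 h3 h4)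

def kx3z_t28 (_A1 _A2 A3 _A4 : TM) : TM := tscale 489 250 (A3)

theorem kx3z_h28 (_h1 : Enc S E A1 a1) (_h2 : Enc S E A2 a2) (h3 : Enc S E A3 a3) (_h4 : Enc S E A4 a4) : Enc S E (kx3z_t28 A1 A2 A3 A4) (kx3z_v28 a1 a2 a3 a4) := enc_scale 489 (by norm_num) (h3)

def kx3z_t29 (A1 A2 A3 A4 : TM) : TM := tmul S (kx3z_t5 A1 A2 A3 A4) (kx3z_t13 A1 A2 A3 A4)

theorem kx3z_h29 (h1 : Enc S E A1 a1) (h2 : Enc S E A2 a2) (h3 : Enc S E A3 a3) (h4 : Enc S E A4 a4) : Enc S E (kx3z_t29 A1 A2 A3 A4) (kx3z_v29 a1 a2 a3 a4) := enc_mul hS (kx3z_h5 h1 h2 h3 h4) (kx3z_h13 h1 h2 h3 h4)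

def kx3z_t30 (A1 A2 A3 A4 : TM) : TM := tinv S (kx3z_t29 A1 A2 A3 A4)

theorem kx3z_h30 (h1 : Enc S E A1 a1) (h2 : Enc S E A2 a2) (h3 : Enc S E A3 a3) (h4 : Enc S E A4 a4) : Enc S E (kx3z_t30 A1 A2 A3 A4) (kx3z_v30 a1 a2 a3 a4) := enc_inv hS (kx3z_h29 h1 h2 h3 h4)

def kx3z_t31 (A1 A2 A3 A4 : TM) : TM := tmul S (kx3z_t28 A1 A2 A3 A4) (kx3z_t30 A1 A2 A3 A4)

theorem kx3z_h31 (h1 : Enc S E A1 a1) (h2 : Enc S E A2 a2) (h3 : Enc S E A3 a3) (h4 : Enc S E A4 a4) : Enc S E (kx3z_t31 A1 A2 A3 A4) (kx3z_v31 a1 a2 a3 a4) := enc_mul hS (kx3z_h28 h1 h2 h3 h4) (kx3z_h30 h1 h2 h3 h4)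

def kx3z_t32 (A1 A2 A3 A4 : TM) : TM := tsub (kx3z_t27 A1 A2 A3 A4) (kx3z_t31 A1 A2 A3 A4)

theorem kx3z_h32 (h1 : Enc S E A1 a1) (h2 : Enc S E A2 a2) (h3 : Enc S E A3 a3) (h4 : Enc S E A4 a4) : Enc S E (kx3z_t32 A1 A2 A3 A4) (kx3z_v32 a1 a2 a3 a4) := enc_sub (kx3z_h27 h1 h2 h3 h4) (kx3z_h31 h1 h2 h3 h4)

def kx3z_t33 (A1 A2 A3 A4 : TM) : TM := tsub (kx3z_t9 A1 A2 A3 A4) (A1)

theorem kx3z_h33 (h1 : Enc S E A1 a1) (h2 : Enc S E A2 a2) (h3 : Enc S E A3 a3) (h4 : Enc S E A4 a4) : Enc S E (kx3z_t33 A1 A2 A3 A4) (kx3z_v33 a1 a2 a3 a4) := enc_sub (kx3z_h9 h1 h2 h3 h4) (h1)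

def kx3z_t34 (A1 A2 A3 A4 : TM) : TM := tmul S (kx3z_t24 A1 A2 A3 A4) (kx3z_t33 A1 A2 A3 A4)

theorem kx3z_h34 (h1 : Enc S E A1 a1) (h2 : Enc S E A2 a2) (h3 : Enc S E A3 a3) (h4 : Enc S E A4 a4) : Enc S E (kx3z_t34 A1 A2 A3 A4) (kx3z_v34 a1 a2 a3 a4) := enc_mul hS (kx3z_h24 h1 h2 h3 h4) (kx3z_h33 h1 h2 h3 h4)

def kx3z_t35 (A1 A2 A3 A4 : TM) : TM := tinv S (kx3z_t34 A1 A2 A3 A4)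

theorem kx3z_h35 (h1 : Enc S E A1 a1) (h2 : Enc S E A2 a2) (h3 : Enc S E A3 a3) (h4 : Enc S E A4 a4) : Enc S E (kx3z_t35 A1 A2 A3 A4) (kx3z_v35 a1 a2 a3 a4) := enc_inv hS (kx3z_h34 h1 h2 h3 h4)

def kx3z_t36 (A1 A2 A3 A4 : TM) : TM := tmul S (kx3z_t11 A1 A2 A3 A4) (kx3z_t35 A1 A2 A3 A4)

theorem kx3z_h36 (h1 : Enc S E A1 a1) (h2 : Enc S E A2 a2) (h3 : Enc S E A3 a3) (h4 : Enc S E A4 a4) : Enc S E (kx3z_t36 A1 A2 A3 A4) (kx3z_v36 a1 a2 a3 a4) := enc_mul hS (kx3z_h11 h1 h2 h3 h4) (kx3z_h35 h1 h2 h3 h4)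

def kx3z_t38 (A1 A2 A3 A4 : TM) : TM := tmul S (kx3z_t12 A1 A2 A3 A4) (kx3z_t32 A1 A2 A3 A4)

theorem kx3z_h38 (h1 : Enc S E A1 a1) (h2 : Enc S E A2 a2) (h3 : Enc S E A3 a3) (h4 : Enc S E A4 a4) : Enc S E (kx3z_t38 A1 A2 A3 A4) (kx3z_v38 a1 a2 a3 a4) := enc_mul hS (kx3z_h12 h1 h2 h3 h4) (kx3z_h32 h1 h2 h3 h4)

def kx3z_t39 (A1 A2 A3 A4 : TM) : TM := tmul S (A3) (kx3z_t19 A1 A2 A3 A4)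

theorem kx3z_h39 (h1 : Enc S E A1 a1) (h2 : Enc S E A2 a2) (h3 : Enc S E A3 a3) (h4 : Enc S E A4 a4) : Enc S E (kx3z_t39 A1 A2 A3 A4) (kx3z_v39 a1 a2 a3 a4) := enc_mul hS (h3) (kx3z_h19 h1 h2 h3 h4)

def kx3z_t40 (A1 A2 A3 A4 : TM) : TM := tadd (kx3z_t8 A1 A2 A3 A4) (kx3z_t39 A1 A2 A3 A4)

theorem kx3z_h40 (h1 : Enc S E A1 a1) (h2 : Enc S E A2 a2) (h3 : Enc S E A3 a3) (h4 : Enc S E A4 a4) : Enc S E (kx3z_t40 A1 A2 A3 A4) (kx3z_v40 a1 a2 a3 a4) := enc_add (kx3z_h8 h1 h2 h3 h4) (kx3z_h39 h1 h2 h3 h4)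

def kx3z_t41 (A1 A2 A3 A4 : TM) : TM := tmul S (kx3z_t38 A1 A2 A3 A4) (kx3z_t40 A1 A2 A3 A4)

theorem kx3z_h41 (h1 : Enc S E A1 a1) (h2 : Enc S E A2 a2) (h3 : Enc S E A3 a3) (h4 : Enc S E A4 a4) : Enc S E (kx3z_t41 A1 A2 A3 A4) (kx3z_v41 a1 a2 a3 a4) := enc_mul hS (kx3z_h38 h1 h2 h3 h4) (kx3z_h40 h1 h2 h3 h4)

def kx3z_t42 (A1 A2 A3 A4 : TM) : TM := tsub (kx3z_t8 A1 A2 A3 A4) (kx3z_t39 A1 A2 A3 A4)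

theorem kx3z_h42 (h1 : Enc S E A1 a1) (h2 : Enc S E A2 a2) (h3 : Enc S E A3 a3) (h4 : Enc S E A4 a4) : Enc S E (kx3z_t42 A1 A2 A3 A4) (kx3z_v42 a1 a2 a3 a4) := enc_sub (kx3z_h8 h1 h2 h3 h4) (kx3z_h39 h1 h2 h3 h4)

def kx3z_t43 (A1 A2 A3 A4 : TM) : TM := tinv S (kx3z_t42 A1 A2 A3 A4)

theorem kx3z_h43 (h1 : Enc S E A1 a1) (h2 : Enc S E A2 a2) (h3 : Enc S E A3 a3) (h4 : Enc S E A4 a4) : Enc S E (kx3z_t43 A1 A2 A3 A4) (kx3z_v43 a1 a2 a3 a4) := enc_inv hS (kx3z_h42 h1 h2 h3 h4)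

def kx3z_t44 (A1 A2 A3 A4 : TM) : TM := tmul S (kx3z_t41 A1 A2 A3 A4) (kx3z_t43 A1 A2 A3 A4)

theorem kx3z_h44 (h1 : Enc S E A1 a1) (h2 : Enc S E A2 a2) (h3 : Enc S E A3 a3) (h4 : Enc S E A4 a4) : Enc S E (kx3z_t44 A1 A2 A3 A4) (kx3z_v44 a1 a2 a3 a4) := enc_mul hS (kx3z_h41 h1 h2 h3 h4) (kx3z_h43 h1 h2 h3 h4)

def kx3z_t45 (A1 A2 A3 A4 : TM) : TM := tsub (kx3z_t44 A1 A2 A3 A4) (kx3z_t36 A1 A2 A3 A4)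

theorem kx3z_h45 (h1 : Enc S E A1 a1) (h2 : Enc S E A2 a2) (h3 : Enc S E A3 a3) (h4 : Enc S E A4 a4) : Enc S E (kx3z_t45 A1 A2 A3 A4) (kx3z_v45 a1 a2 a3 a4) := enc_sub (kx3z_h44 h1 h2 h3 h4) (kx3z_h36 h1 h2 h3 h4)

def kx3z_t46 (_A1 A2 _A3 _A4 : TM) : TM := b1q3_t (A2)

theorem kx3z_h46 (_h1 : Enc S E A1 a1) (h2 : Enc S E A2 a2) (_h3 : Enc S E A3 a3) (_h4 : Enc S E A4 a4) : Enc S E (kx3z_t46 A1 A2 A3 A4) (kx3z_v46 a1 a2 a3 a4) := b1q3_enc (h2)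

def kx3z_t47 (_A1 A2 _A3 _A4 : TM) : TM := b2q3_t (A2)

theorem kx3z_h47 (_h1 : Enc S E A1 a1) (h2 : Enc S E A2 a2) (_h3 : Enc S E A3 a3) (_h4 : Enc S E A4 a4) : Enc S E (kx3z_t47 A1 A2 A3 A4) (kx3z_v47 a1 a2 a3 a4) := b2q3_enc (h2)

def kx3z_t48 (A1 A2 A3 A4 : TM) : TM := tmul S (kx3z_t9 A1 A2 A3 A4) (A3)

theorem kx3z_h48 (h1 : Enc S E A1 a1) (h2 : Enc S E A2 a2) (h3 : Enc S E A3 a3) (h4 : Enc S E A4 a4) : Enc S E (kx3z_t48 A1 A2 A3 A4) (kx3z_v48 a1 a2 a3 a4) := enc_mul hS (kx3z_h9 h1 h2 h3 h4) (h3)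

def kx3z_t49 (A1 A2 A3 A4 : TM) : TM := tmul S (kx3z_t48 A1 A2 A3 A4) (kx3z_t12 A1 A2 A3 A4)

theorem kx3z_h49 (h1 : Enc S E A1 a1) (h2 : Enc S E A2 a2) (h3 : Enc S E A3 a3) (h4 : Enc S E A4 a4) : Enc S E (kx3z_t49 A1 A2 A3 A4) (kx3z_v49 a1 a2 a3 a4) := enc_mul hS (kx3z_h48 h1 h2 h3 h4) (kx3z_h12 h1 h2 h3 h4)

def kx3z_t50 (A1 A2 A3 A4 : TM) : TM := tmul S (kx3z_t49 A1 A2 A3 A4) (kx3z_t21 A1 A2 A3 A4)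

theorem kx3z_h50 (h1 : Enc S E A1 a1) (h2 : Enc S E A2 a2) (h3 : Enc S E A3 a3) (h4 : Enc S E A4 a4) : Enc S E (kx3z_t50 A1 A2 A3 A4) (kx3z_v50 a1 a2 a3 a4) := enc_mul hS (kx3z_h49 h1 h2 h3 h4) (kx3z_h21 h1 h2 h3 h4)

def kx3z_t51 (A1 A2 A3 A4 : TM) : TM := tadd (kx3z_t50 A1 A2 A3 A4) (kx3z_t9 A1 A2 A3 A4)

theorem kx3z_h51 (h1 : Enc S E A1 a1) (h2 : Enc S E A2 a2) (h3 : Enc S E A3 a3) (h4 : Enc S E A4 a4) : Enc S E (kx3z_t51 A1 A2 A3 A4) (kx3z_v51 a1 a2 a3 a4) := enc_add (kx3z_h50 h1 h2 h3 h4) (kx3z_h9 h1 h2 h3 h4)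

def kx3z_t52 (A1 A2 A3 A4 : TM) : TM := tmul S (A3) (kx3z_t11 A1 A2 A3 A4)

theorem kx3z_h52 (h1 : Enc S E A1 a1) (h2 : Enc S E A2 a2) (h3 : Enc S E A3 a3) (h4 : Enc S E A4 a4) : Enc S E (kx3z_t52 A1 A2 A3 A4) (kx3z_v52 a1 a2 a3 a4) := enc_mul hS (h3) (kx3z_h11 h1 h2 h3 h4)

def kx3z_t53 (A1 A2 A3 A4 : TM) : TM := tsub (kx3z_t51 A1 A2 A3 A4) (kx3z_t52 A1 A2 A3 A4)

theorem kx3z_h53 (h1 : Enc S E A1 a1) (h2 : Enc S E A2 a2) (h3 : Enc S E A3 a3) (h4 : Enc S E A4 a4) : Enc S E (kx3z_t53 A1 A2 A3 A4) (kx3z_v53 a1 a2 a3 a4) := enc_sub (kx3z_h51 h1 h2 h3 h4) (kx3z_h52 h1 h2 h3 h4)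

def kx3z_t54 (A1 A2 A3 A4 : TM) : TM := tmul S (kx3z_t25 A1 A2 A3 A4) (kx3z_t33 A1 A2 A3 A4)

theorem kx3z_h54 (h1 : Enc S E A1 a1) (h2 : Enc S E A2 a2) (h3 : Enc S E A3 a3) (h4 : Enc S E A4 a4) : Enc S E (kx3z_t54 A1 A2 A3 A4) (kx3z_v54 a1 a2 a3 a4) := enc_mul hS (kx3z_h25 h1 h2 h3 h4) (kx3z_h33 h1 h2 h3 h4)

def kx3z_t55 (A1 A2 A3 A4 : TM) : TM := tinv S (kx3z_t54 A1 A2 A3 A4)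

theorem kx3z_h55 (h1 : Enc S E A1 a1) (h2 : Enc S E A2 a2) (h3 : Enc S E A3 a3) (h4 : Enc S E A4 a4) : Enc S E (kx3z_t55 A1 A2 A3 A4) (kx3z_v55 a1 a2 a3 a4) := enc_inv hS (kx3z_h54 h1 h2 h3 h4)

def kx3z_t56 (A1 A2 A3 A4 : TM) : TM := tmul S (kx3z_t53 A1 A2 A3 A4) (kx3z_t55 A1 A2 A3 A4)

theorem kx3z_h56 (h1 : Enc S E A1 a1) (h2 : Enc S E A2 a2) (h3 : Enc S E A3 a3) (h4 : Enc S E A4 a4) : Enc S E (kx3z_t56 A1 A2 A3 A4) (kx3z_v56 a1 a2 a3 a4) := enc_mul hS (kx3z_h53 h1 h2 h3 h4) (kx3z_h55 h1 h2 h3 h4)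

def kx3z_t58 (A1 A2 A3 A4 : TM) : TM := tmul S (kx3z_t28 A1 A2 A3 A4) (kx3z_t12 A1 A2 A3 A4)

theorem kx3z_h58 (h1 : Enc S E A1 a1) (h2 : Enc S E A2 a2) (h3 : Enc S E A3 a3) (h4 : Enc S E A4 a4) : Enc S E (kx3z_t58 A1 A2 A3 A4) (kx3z_v58 a1 a2 a3 a4) := enc_mul hS (kx3z_h28 h1 h2 h3 h4) (kx3z_h12 h1 h2 h3 h4)

def kx3z_t59 (A1 A2 A3 A4 : TM) : TM := tmul S (kx3z_t58 A1 A2 A3 A4) (kx3z_t30 A1 A2 A3 A4)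

theorem kx3z_h59 (h1 : Enc S E A1 a1) (h2 : Enc S E A2 a2) (h3 : Enc S E A3 a3) (h4 : Enc S E A4 a4) : Enc S E (kx3z_t59 A1 A2 A3 A4) (kx3z_v59 a1 a2 a3 a4) := enc_mul hS (kx3z_h58 h1 h2 h3 h4) (kx3z_h30 h1 h2 h3 h4)

def kx3z_t60 (A1 A2 A3 A4 : TM) : TM := tsub (kx3z_t59 A1 A2 A3 A4) (kx3z_t56 A1 A2 A3 A4)

theorem kx3z_h60 (h1 : Enc S E A1 a1) (h2 : Enc S E A2 a2) (h3 : Enc S E A3 a3) (h4 : Enc S E A4 a4) : Enc S E (kx3z_t60 A1 A2 A3 A4) (kx3z_v60 a1 a2 a3 a4) := enc_sub (kx3z_h59 h1 h2 h3 h4) (kx3z_h56 h1 h2 h3 h4)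

def kx3z_t61 (A1 A2 A3 A4 : TM) : TM := tmul S (kx3z_t12 A1 A2 A3 A4) (kx3z_t19 A1 A2 A3 A4)

theorem kx3z_h61 (h1 : Enc S E A1 a1) (h2 : Enc S E A2 a2) (h3 : Enc S E A3 a3) (h4 : Enc S E A4 a4) : Enc S E (kx3z_t61 A1 A2 A3 A4) (kx3z_v61 a1 a2 a3 a4) := enc_mul hS (kx3z_h12 h1 h2 h3 h4) (kx3z_h19 h1 h2 h3 h4)

def kx3z_t62 (A1 A2 A3 A4 : TM) : TM := tsub (kx3z_t47 A1 A2 A3 A4) (kx3z_t46 A1 A2 A3 A4)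

theorem kx3z_h62 (h1 : Enc S E A1 a1) (h2 : Enc S E A2 a2) (h3 : Enc S E A3 a3) (h4 : Enc S E A4 a4) : Enc S E (kx3z_t62 A1 A2 A3 A4) (kx3z_v62 a1 a2 a3 a4) := enc_sub (kx3z_h47 h1 h2 h3 h4) (kx3z_h46 h1 h2 h3 h4)

def kx3z_t63 (A1 A2 A3 A4 : TM) : TM := tmul S (kx3z_t61 A1 A2 A3 A4) (kx3z_t62 A1 A2 A3 A4)

theorem kx3z_h63 (h1 : Enc S E A1 a1) (h2 : Enc S E A2 a2) (h3 : Enc S E A3 a3) (h4 : Enc S E A4 a4) : Enc S E (kx3z_t63 A1 A2 A3 A4) (kx3z_v63 a1 a2 a3 a4) := enc_mul hS (kx3z_h61 h1 h2 h3 h4) (kx3z_h62 h1 h2 h3 h4)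

def kx3z_t64 (A1 A2 A3 A4 : TM) : TM := tsub (kx3z_t60 A1 A2 A3 A4) (kx3z_t63 A1 A2 A3 A4)

theorem kx3z_h64 (h1 : Enc S E A1 a1) (h2 : Enc S E A2 a2) (h3 : Enc S E A3 a3) (h4 : Enc S E A4 a4) : Enc S E (kx3z_t64 A1 A2 A3 A4) (kx3z_v64 a1 a2 a3 a4) := enc_sub (kx3z_h60 h1 h2 h3 h4) (kx3z_h63 h1 h2 h3 h4)

def kx3z_t65 (A1 A2 A3 A4 : TM) : TM := tscale 1 2 (kx3z_t42 A1 A2 A3 A4)

theorem kx3z_h65 (h1 : Enc S E A1 a1) (h2 : Enc S E A2 a2) (h3 : Enc S E A3 a3) (h4 : Enc S E A4 a4) : Enc S E (kx3z_t65 A1 A2 A3 A4) (kx3z_v65 a1 a2 a3 a4) := enc_scale 1 (by norm_num) (kx3z_h42 h1 h2 h3 h4)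

def kx3z_t66 (A1 A2 A3 A4 : TM) : TM := tsub (kx3z_t8 A1 A2 A3 A4) (A4)

theorem kx3z_h66 (h1 : Enc S E A1 a1) (h2 : Enc S E A2 a2) (h3 : Enc S E A3 a3) (h4 : Enc S E A4 a4) : Enc S E (kx3z_t66 A1 A2 A3 A4) (kx3z_v66 a1 a2 a3 a4) := enc_sub (kx3z_h8 h1 h2 h3 h4) (h4)

def kx3z_t67 (A1 A2 A3 A4 : TM) : TM := tlam S (kx3z_t65 A1 A2 A3 A4) (kx3z_t66 A1 A2 A3 A4)

theorem kx3z_h67 (h1 : Enc S E A1 a1) (h2 : Enc S E A2 a2) (h3 : Enc S E A3 a3) (h4 : Enc S E A4 a4) : Enc S E (kx3z_t67 A1 A2 A3 A4) (kx3z_v67 a1 a2 a3 a4) := enc_lam hS (kx3z_h65 h1 h2 h3 h4) (kx3z_h66 h1 h2 h3 h4)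

def kx3z_t68 (A1 A2 A3 A4 : TM) : TM := tscale 1 2 (kx3z_t40 A1 A2 A3 A4)

theorem kx3z_h68 (h1 : Enc S E A1 a1) (h2 : Enc S E A2 a2) (h3 : Enc S E A3 a3) (h4 : Enc S E A4 a4) : Enc S E (kx3z_t68 A1 A2 A3 A4) (kx3z_v68 a1 a2 a3 a4) := enc_scale 1 (by norm_num) (kx3z_h40 h1 h2 h3 h4)

def kx3z_t69 (A1 A2 A3 A4 : TM) : TM := tsub (kx3z_t68 A1 A2 A3 A4) (A4)

theorem kx3z_h69 (h1 : Enc S E A1 a1) (h2 : Enc S E A2 a2) (h3 : Enc S E A3 a3) (h4 : Enc S E A4 a4) : Enc S E (kx3z_t69 A1 A2 A3 A4) (kx3z_v69 a1 a2 a3 a4) := enc_sub (kx3z_h68 h1 h2 h3 h4) (h4)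

def kx3z_t70 (A1 A2 A3 A4 : TM) : TM := tsub (kx3z_t8 A1 A2 A3 A4) (kx3z_t67 A1 A2 A3 A4)

theorem kx3z_h70 (h1 : Enc S E A1 a1) (h2 : Enc S E A2 a2) (h3 : Enc S E A3 a3) (h4 : Enc S E A4 a4) : Enc S E (kx3z_t70 A1 A2 A3 A4) (kx3z_v70 a1 a2 a3 a4) := enc_sub (kx3z_h8 h1 h2 h3 h4) (kx3z_h67 h1 h2 h3 h4)

def kx3z_t71 (A1 A2 A3 A4 : TM) : TM := tmul S (kx3z_t70 A1 A2 A3 A4) (kx3z_t64 A1 A2 A3 A4)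

theorem kx3z_h71 (h1 : Enc S E A1 a1) (h2 : Enc S E A2 a2) (h3 : Enc S E A3 a3) (h4 : Enc S E A4 a4) : Enc S E (kx3z_t71 A1 A2 A3 A4) (kx3z_v71 a1 a2 a3 a4) := enc_mul hS (kx3z_h70 h1 h2 h3 h4) (kx3z_h64 h1 h2 h3 h4)

def kx3z_t72 (A1 A2 A3 A4 : TM) : TM := tmul S (kx3z_t67 A1 A2 A3 A4) (kx3z_t45 A1 A2 A3 A4)

theorem kx3z_h72 (h1 : Enc S E A1 a1) (h2 : Enc S E A2 a2) (h3 : Enc S E A3 a3) (h4 : Enc S E A4 a4) : Enc S E (kx3z_t72 A1 A2 A3 A4) (kx3z_v72 a1 a2 a3 a4) := enc_mul hS (kx3z_h67 h1 h2 h3 h4) (kx3z_h45 h1 h2 h3 h4)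

def kx3z_t73 (A1 A2 A3 A4 : TM) : TM := tadd (kx3z_t71 A1 A2 A3 A4) (kx3z_t72 A1 A2 A3 A4)

theorem kx3z_h73 (h1 : Enc S E A1 a1) (h2 : Enc S E A2 a2) (h3 : Enc S E A3 a3) (h4 : Enc S E A4 a4) : Enc S E (kx3z_t73 A1 A2 A3 A4) (kx3z_v73 a1 a2 a3 a4) := enc_add (kx3z_h71 h1 h2 h3 h4) (kx3z_h72 h1 h2 h3 h4)

def kx3z_t74 (A1 A2 A3 A4 : TM) : TM := tcase (kx3z_t69 A1 A2 A3 A4) (kx3z_t45 A1 A2 A3 A4) (kx3z_t73 A1 A2 A3 A4)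

theorem kx3z_h74 (h1 : Enc S E A1 a1) (h2 : Enc S E A2 a2) (h3 : Enc S E A3 a3) (h4 : Enc S E A4 a4) : Enc S E (kx3z_t74 A1 A2 A3 A4) (kx3z_v74 a1 a2 a3 a4) := enc_case hS (kx3z_h69 h1 h2 h3 h4) (kx3z_h45 h1 h2 h3 h4) (kx3z_h73 h1 h2 h3 h4)

def kx3z_t (A1 A2 A3 A4 : TM) : TM := kx3z_t74 A1 A2 A3 A4

theorem kx3z_enc (h1 : Enc S E A1 a1) (h2 : Enc S E A2 a2) (h3 : Enc S E A3 a3) (h4 : Enc S E A4 a4) : Enc S E (kx3z_t A1 A2 A3 A4) (kx3z_v a1 a2 a3 a4) := kx3z_h74 h1 h2 h3 h4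

end Pool.Agent.Strip051.LB.Fd.F2
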